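import Pool.Agent.H8.ZA.Targets

/-!
# The key inequality between the heights of three consecutive points of an orbit
-/

open MvPolynomial
open Pool.Agent.H12.ZD (pmap)

namespace Pool.Agent.H8.ZA

theorem Const.prod {K : IntermediateField ℚ Qb} {F : HFam K} {α : Type} (s : Finset α)
    (c : α → F.ι → ℝ) (h : ∀ a ∈ s, Const F (c a)) : Const F fun i => ∏ a ∈ s, c a i := by
  classical
  induction s using Finset.induction_on with
  | empty => simpa using Const.one F
  | insert a s ha ih =>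
    have h1 := (h a (Finset.mem_insert_self _ _)).mul
      (ih fun b hb => h b (Finset.mem_insert_of_mem hb))
    have : (fun i => ∏ b ∈ insert a s, c b i) = fun i => c a i * ∏ b ∈ s, c b i := by
      funext i
      exact Finset.prod_insert ha
    rw [this]
    exact h1

theorem le_prod_const {K : IntermediateField ℚ Qb} {F : HFam K} {α : Type} (s : Finset α)
    (c : α → F.ι → ℝ) (h : ∀ a ∈ s, Const F (c a)) {a : α} (ha : a ∈ s) (i : F.ι) :
    c a i ≤ ∏ b ∈ s, c b i := by
  classical
  rw [← Finset.mul_prod_erase s (fun b => c b i) ha]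
  apply le_mul_of_one_le_right ((h a ha).pos i).le
  have hP := Const.prod (F := F) (s.erase a) c fun b hb => h b (Finset.mem_of_mem_erase hb)
  exact hP.one_le i

theorem map_Lf {R : Type} [CommRing R] (N : ℕ) (x : Fin 3 → R) (y : Fin 3 → Po R) (j : Fin N) :
    map (eval x) (Lf N y j) = Lf N (fun i => eval x (y i)) j := by
  unfold Lf
  simp only [map_add, map_X, map_sum, map_mul, map_C]

theorem totalDegree_map_le {R S σ : Type} [CommRing R] [CommRing S] (f : R →+* S)
    (p : MvPolynomial σ R) : (map f p).totalDegree ≤ p.totalDegree :=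
  Finset.sup_mono (support_map_subset f p)

theorem pf_KEY (hA : T_AUX) (hG : T_GNO) (hW : T_WBD) (hH : T_HUB) : T_KEY := by
  classical
  intro g g' d e D Λ hinv hd he hD hdΛ heΛ
  obtain ⟨i₀, hi₀⟩ := exists_deg_eq (comp g g)
  rw [hD] at hi₀
  have hinv2 : Inv (comp g g) (comp g' g') := by
    have h := hinv.it 2
    have e1 : ∀ f : Tup Qb, it f 2 = comp f f := by
      intro f
      rw [show 2 = 1 + 1 from rfl, it_succ, it_one]
    rwa [e1, e1] at h
  have hD1 : 1 ≤ D := hD ▸ hinv2.one_le_deg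
  obtain ⟨B, B', hBB, s, s', hs'0, hs, hsW⟩ :=
    hA Qb g g' i₀ d e D Λ hinv hd he hi₀ hD1 hdΛ heΛ
  obtain ⟨γ₀, hγ₀⟩ := ne_zero_iff.1 hs'0
  refine ⟨coeff γ₀ s', hγ₀, fun K F => ?_⟩
  -- constants
  choose cG hcG0 hcG1 hcGna hcG using fun i => hG Qb (D ^ 2) s'.totalDegree (F.abv i)
  choose cW hcW hcWb using fun γ => hW K F (g i₀) g' (64 * d * D) (65 * d * D * Λ)
    (coeff γ s) (hsW γ)
  choose cH hcH hcHb using fun j : Fin 3 => hH K F (∑ l, C (B' j l) * X l)
  set CW : F.ι → ℝ := fun i => ∏ γ ∈ s.support, cW γ i with hCW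
  have hCWc : Const F CW := Const.prod _ _ fun γ _ => hcW γ
  set CB : F.ι → ℝ := fun i => ∏ j ∈ (Finset.univ : Finset (Fin 3)), cH j i with hCB
  have hCBc : Const F CB := Const.prod _ _ fun j _ => hcH j
  have hGc : Const F fun i => (cG i)⁻¹ := by
    refine ⟨fun i => (one_le_inv₀ (hcG0 i)).2 (hcG1 i), ?_⟩
    refine (F.arch.finite_toSet).subset fun i hi => ?_
    by_contra hcon
    exact hi (by rw [hcGna i (F.na i hcon), inv_one])
  set CC : F.ι → ℝ := fun i => CW i * CB i ^ (D ^ 2) * (cG i)⁻¹ with hCC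
  have hCCc : Const F CC := (hCWc.mul (hCBc.pow (D ^ 2))).mul hGc
  refine ⟨(∑ᶠ i, Real.log (CC i)) / D, fun x hbK hb0 => ?_⟩
  -- the point in the coordinates `B`
  set y : Fin 3 → Qb := fun i => eval x (∑ j, C (B i j) * X j) with hy
  have hy' : ∀ i, y i = ∑ j, B i j * x j := by
    intro i
    simp only [hy, map_sum, map_mul, eval_C, eval_X]
  have hxy : ∀ j, eval y (∑ l, C (B' j l) * X l) = x j := by
    intro j
    simp only [map_sum, map_mul, eval_C, eval_X]
    have h1 : ∑ l, B' j l * y l = ∑ m, (B' * B) j m * x m := by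
      simp only [hy', Matrix.mul_apply, Finset.mul_sum, Finset.sum_mul]
      rw [Finset.sum_comm]
      exact Finset.sum_congr rfl fun m _ => Finset.sum_congr rfl fun l _ => by ring
    rw [h1, hBB]
    simp [Matrix.one_apply]
  have hlindeg : ∀ j, (∑ l, C (B' j l) * X l : Po Qb).totalDegree ≤ 1 := by
    intro j
    apply totalDegree_finsetSum_le
    intro l _
    exact (totalDegree_mul _ _).trans (by rw [totalDegree_C, totalDegree_X])
  have hszB : ∀ i, sz (F.abv i) x ≤ CB i * sz (F.abv i) y := by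
    intro i
    apply sz_le (one_le_mul_of_one_le_of_one_le (hCBc.one_le i) (one_le_sz _ _))
    intro j
    calc F.abv i (x j) = F.abv i (eval y (∑ l, C (B' j l) * X l)) := by rw [hxy]
      _ ≤ cH j i * sz (F.abv i) y ^ (∑ l, C (B' j l) * X l : Po Qb).totalDegree := hcHb j i y
      _ ≤ cH j i * sz (F.abv i) y ^ 1 := by
          apply mul_le_mul_of_nonneg_left _ ((hcH j).pos i).le
          exact pow_le_pow_right₀ (one_le_sz _ _) (hlindeg j)
      _ = cH j i * sz (F.abv i) y := by rw [pow_one]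
      _ ≤ CB i * sz (F.abv i) y := by
          apply mul_le_mul_of_nonneg_right _ (sz_pos _ _).le
          exact le_prod_const _ _ (fun j _ => hcH j) (Finset.mem_univ j) i
  -- the local inequality
  have hloc : ∀ i, cG i * sz (F.abv i) y ^ (D ^ 2) * F.abv i (eval x (coeff γ₀ s')) ≤
      CW i * (sz (F.abv i) (pmap g x) ^ (64 * d * D) *
        sz (F.abv i) (pmap g' x) ^ (65 * d * D * Λ)) := by
    intro i
    have hms : map (eval x) s = (∏ j, Lf (D ^ 2) y j) * map (eval x) s' := by
      rw [hs, map_mul, map_prod]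
      congr 1
      apply Finset.prod_congr rfl
      intro j _
      exact map_Lf _ _ _ _
    have hdeg : (map (eval x) s').totalDegree ≤ s'.totalDegree := totalDegree_map_le _ _
    obtain ⟨γ', hγ'⟩ := hcG i y (map (eval x) s') hdeg γ₀
    rw [← hms, coeff_map, coeff_map] at hγ'
    refine hγ'.trans ?_
    have hR : 0 ≤ sz (F.abv i) (pmap g x) ^ (64 * d * D) *
        sz (F.abv i) (pmap g' x) ^ (65 * d * D * Λ) :=
      mul_nonneg (pow_nonneg (sz_pos _ _).le _) (pow_nonneg (sz_pos _ _).le _)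
    by_cases hsup : γ' ∈ s.support
    · refine (hcWb γ' i x).trans ?_
      apply mul_le_mul (le_prod_const _ _ (fun γ _ => hcW γ) hsup i) _ _ (hCWc.pos i).le
      · apply mul_le_mul_of_nonneg_right _ (pow_nonneg (sz_pos _ _).le _)
        apply pow_le_pow_left₀ (le_trans zero_le_one (le_max_left _ _))
        exact max_le (one_le_sz _ _) (le_sz (F.abv i) (pmap g x) i₀)
      · exact mul_nonneg (pow_nonneg (le_trans zero_le_one (le_max_left _ _)) _)
          (pow_nonneg (sz_pos _ _).le _)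
    · rw [notMem_support_iff.1 hsup, map_zero, map_zero]
      exact mul_nonneg (hCWc.pos i).le hR
  have hloc2 : ∀ i, ((D ^ 2 : ℕ) : ℝ) * Real.log (sz (F.abv i) x) +
      Real.log (F.abv i (eval x (coeff γ₀ s'))) ≤
      ((64 * d * D : ℕ) : ℝ) * Real.log (sz (F.abv i) (pmap g x)) +
      ((65 * d * D * Λ : ℕ) : ℝ) * Real.log (sz (F.abv i) (pmap g' x)) + Real.log (CC i) := by
    intro i
    have hb : 0 < F.abv i (eval x (coeff γ₀ s')) := (F.abv i).pos hb0
    have h1 : Real.log (sz (F.abv i) x) ≤ Real.log (CB i) + Real.log (sz (F.abv i) y) := by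
      rw [← Real.log_mul (hCBc.pos i).ne' (sz_pos _ _).ne']
      exact Real.log_le_log (sz_pos _ _) (hszB i)
    have h2 := Real.log_le_log (mul_pos (mul_pos (hcG0 i) (pow_pos (sz_pos (F.abv i) y) _)) hb)
      (hloc i)
    rw [Real.log_mul (mul_pos (hcG0 i) (pow_pos (sz_pos (F.abv i) y) _)).ne' hb.ne',
      Real.log_mul (hcG0 i).ne' (pow_pos (sz_pos (F.abv i) y) _).ne', Real.log_pow,
      Real.log_mul (hCWc.pos i).ne' (mul_pos (pow_pos (sz_pos _ _) _)
        (pow_pos (sz_pos _ _) _)).ne',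
      Real.log_mul (pow_pos (sz_pos _ _) _).ne' (pow_pos (sz_pos _ _) _).ne', Real.log_pow,
      Real.log_pow] at h2
    have h3 : Real.log (CC i) = Real.log (CW i) + ((D ^ 2 : ℕ) : ℝ) * Real.log (CB i) -
        Real.log (cG i) := by
      simp only [hCC]
      rw [Real.log_mul (mul_pos (hCWc.pos i) (pow_pos (hCBc.pos i) _)).ne'
        (inv_pos.2 (hcG0 i)).ne', Real.log_mul (hCWc.pos i).ne' (pow_pos (hCBc.pos i) _).ne',
        Real.log_pow, Real.log_inv]
      ring
    have h4 := mul_le_mul_of_nonneg_left h1 (Nat.cast_nonneg (α := ℝ) (D ^ 2))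
    rw [h3]
    linarith
  have hfin := ht_compare F (x := x) (y := pmap g x) (z := pmap g' x)
    (eval x (coeff γ₀ s')) hbK hb0 CC hCCc hloc2
  have hDpos : (0 : ℝ) < D := by exact_mod_cast hD1
  have h5 : (D : ℝ) * (D * F.ht x) ≤ D * (64 * d * F.ht (pmap g x) +
      65 * d * Λ * F.ht (pmap g' x) + (∑ᶠ i, Real.log (CC i)) / D) := by
    have e1 : (D : ℝ) * ((∑ᶠ i, Real.log (CC i)) / D) = ∑ᶠ i, Real.log (CC i) := by
      field_simp
    push_cast at hfin
    calc (D : ℝ) * (D * F.ht x) = (D : ℝ) ^ 2 * F.ht x := by ring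
      _ ≤ _ := hfin
      _ = _ := by
        rw [mul_add, e1]
        ring
  exact le_of_mul_le_mul_left h5 hDpos

end Pool.Agent.H8.ZA
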