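import Pool.Agent.H8.ZA.Defs

/-!
# Compositions, iterates and degrees
-/

open MvPolynomial
open Pool.Agent.H12.ZD (pmap)

namespace Pool.Agent.H8.ZA

section ring

variable {k : Type} [CommRing k]

theorem comp_X (f : Tup k) : comp f (fun i => X i) = f := by
  funext i
  exact aeval_X_left_apply (f i)

theorem X_comp (f : Tup k) : comp (fun i => X i) f = f := by
  funext i
  exact aeval_X f i

theorem aeval_comp (f g : Tup k) (q : Po k) : aeval (comp f g) q = aeval g (aeval f q) := by
  have h : (aeval (comp f g) : Po k →ₐ[k] Po k) = (aeval g : Po k →ₐ[k] Po k).comp (aeval f) := by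
    apply algHom_ext
    intro i
    rw [AlgHom.comp_apply, aeval_X, aeval_X]
    rfl
  rw [h]
  rfl

theorem comp_assoc (f g h : Tup k) : comp (comp f g) h = comp f (comp g h) := by
  funext i
  exact (aeval_comp g h (f i)).symm

theorem eval_aeval (g : Tup k) (q : Po k) (x : Fin 3 → k) :
    eval x (aeval g q) = eval (pmap g x) q := by
  have h : (aeval x : Po k →ₐ[k] k).comp (aeval g : Po k →ₐ[k] Po k) = aeval (pmap g x) := by
    apply algHom_ext
    intro i
    rw [AlgHom.comp_apply, aeval_X, aeval_X]
    rfl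
  exact DFunLike.congr_fun h q

theorem pmap_comp (f g : Tup k) (x : Fin 3 → k) : pmap (comp f g) x = pmap f (pmap g x) := by
  funext i
  exact eval_aeval g (f i) x

theorem pmap_X (x : Fin 3 → k) : pmap (fun i => (X i : Po k)) x = x := by
  funext i
  exact eval_X i

theorem it_zero (f : Tup k) : it f 0 = fun i => X i := rfl

theorem it_succ (f : Tup k) (n : ℕ) : it f (n + 1) = comp f (it f n) :=
  Function.iterate_succ_apply' _ _ _

theorem it_one (f : Tup k) : it f 1 = f := by rw [it_succ, it_zero, comp_X]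

theorem it_add (f : Tup k) (m n : ℕ) : it f (m + n) = comp (it f m) (it f n) := by
  induction m with
  | zero => rw [Nat.zero_add, it_zero, X_comp]
  | succ m ih => rw [Nat.succ_add, it_succ, ih, it_succ, comp_assoc]

theorem it_succ' (f : Tup k) (n : ℕ) : it f (n + 1) = comp (it f n) f := by
  rw [it_add, it_one]

theorem it_mul (f : Tup k) (m n : ℕ) : it (it f m) n = it f (m * n) := by
  induction n with
  | zero => rfl
  | succ n ih => rw [it_succ, ih, ← it_add, Nat.mul_succ, Nat.add_comm]

theorem pmap_it (f : Tup k) (n : ℕ) (x : Fin 3 → k) : pmap (it f n) x = (pmap f)^[n] x := by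
  induction n with
  | zero => exact pmap_X x
  | succ n ih => rw [it_succ, pmap_comp, ih, Function.iterate_succ_apply']

theorem pmap_it_iterate (f : Tup k) (m n : ℕ) (x : Fin 3 → k) :
    (pmap (it f m))^[n] x = (pmap f)^[m * n] x := by
  rw [← pmap_it, it_mul, pmap_it]

theorem Inv.symm {f f' : Tup k} (h : Inv f f') : Inv f' f := ⟨h.right, h.left⟩

theorem Inv.pmap_left {f f' : Tup k} (h : Inv f f') (x : Fin 3 → k) : pmap f (pmap f' x) = x := by
  rw [← pmap_comp, h.left, pmap_X]

theorem Inv.pmap_right {f f' : Tup k} (h : Inv f f') (x : Fin 3 → k) : pmap f' (pmap f x) = x := by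
  rw [← pmap_comp, h.right, pmap_X]

theorem Inv.it {f f' : Tup k} (h : Inv f f') (n : ℕ) : Inv (it f n) (it f' n) := by
  induction n with
  | zero => exact ⟨X_comp _, X_comp _⟩
  | succ n ih =>
    constructor
    · rw [it_succ f, it_succ' f', comp_assoc, ← comp_assoc (ZA.it f n), ih.left, X_comp, h.left]
    · rw [it_succ f', it_succ' f, comp_assoc, ← comp_assoc (ZA.it f' n), ih.right, X_comp, h.right]

theorem Inv.aeval_left {f f' : Tup k} (h : Inv f f') (q : Po k) : aeval f' (aeval f q) = q := by
  rw [← aeval_comp, h.left]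
  exact aeval_X_left_apply q

theorem Inv.aeval_right {f f' : Tup k} (h : Inv f f') (q : Po k) : aeval f (aeval f' q) = q := by
  rw [← aeval_comp, h.right]
  exact aeval_X_left_apply q

theorem Inv.injective {f f' : Tup k} (h : Inv f f') :
    Function.Injective (aeval f : Po k →ₐ[k] Po k) := by
  intro a b hab
  have := congrArg (aeval f' : Po k →ₐ[k] Po k) hab
  rwa [h.aeval_left, h.aeval_left] at this

/-- the automorphism `q ↦ q ∘ f` of the polynomial ring -/
noncomputable def Inv.equiv {f f' : Tup k} (h : Inv f f') : Po k ≃ₐ[k] Po k :=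
  AlgEquiv.ofAlgHom (aeval f) (aeval f')
    (AlgHom.ext fun q => by rw [AlgHom.comp_apply, h.aeval_right]; rfl)
    (AlgHom.ext fun q => by rw [AlgHom.comp_apply, h.aeval_left]; rfl)

theorem Inv.equiv_apply {f f' : Tup k} (h : Inv f f') (q : Po k) : h.equiv q = aeval f q := rfl

theorem Inv.equiv_symm_apply {f f' : Tup k} (h : Inv f f') (q : Po k) :
    h.equiv.symm q = aeval f' q := rfl

theorem totalDegree_le_deg (f : Tup k) (i : Fin 3) : (f i).totalDegree ≤ deg f :=
  Finset.le_sup (f := fun i => (f i).totalDegree) (Finset.mem_univ i)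

theorem deg_le {f : Tup k} {d : ℕ} (h : ∀ i, (f i).totalDegree ≤ d) : deg f ≤ d :=
  Finset.sup_le fun i _ => h i

theorem exists_deg_eq (f : Tup k) : ∃ i, (f i).totalDegree = deg f := by
  obtain ⟨i, -, hi⟩ := Finset.exists_mem_eq_sup (Finset.univ : Finset (Fin 3))
    Finset.univ_nonempty fun i => (f i).totalDegree
  exact ⟨i, hi.symm⟩

theorem totalDegree_aeval_le {σ : Type} (g : Fin 3 → MvPolynomial σ k) (d : ℕ)
    (hg : ∀ i, (g i).totalDegree ≤ d) (q : Po k) :
    (aeval g q).totalDegree ≤ q.totalDegree * d := by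
  classical
  rw [aeval_def, eval₂_eq]
  apply (totalDegree_finsetSum _ _).trans
  apply Finset.sup_le
  intro m hm
  calc (algebraMap k (MvPolynomial σ k) (coeff m q) * ∏ i ∈ m.support, g i ^ m i).totalDegree
      ≤ (algebraMap k (MvPolynomial σ k) (coeff m q)).totalDegree +
        (∏ i ∈ m.support, g i ^ m i).totalDegree := totalDegree_mul _ _
    _ = (∏ i ∈ m.support, g i ^ m i).totalDegree := by
        rw [algebraMap_eq, totalDegree_C, zero_add]
    _ ≤ ∑ i ∈ m.support, (g i ^ m i).totalDegree := totalDegree_finsetProd _ _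
    _ ≤ ∑ i ∈ m.support, m i * d := by
        apply Finset.sum_le_sum
        intro i _
        exact (totalDegree_pow _ _).trans (Nat.mul_le_mul_left _ (hg i))
    _ = (∑ i ∈ m.support, m i) * d := (Finset.sum_mul _ _ _).symm
    _ ≤ q.totalDegree * d := Nat.mul_le_mul_right _ (le_totalDegree hm)

theorem deg_comp_le (f g : Tup k) : deg (comp f g) ≤ deg f * deg g := by
  apply deg_le
  intro i
  exact (totalDegree_aeval_le g (deg g) (totalDegree_le_deg g) (f i)).trans
    (Nat.mul_le_mul_right _ (totalDegree_le_deg f i))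

theorem deg_it_add_le (f : Tup k) (m n : ℕ) : deg (it f (m + n)) ≤ deg (it f m) * deg (it f n) := by
  rw [it_add]
  exact deg_comp_le _ _

theorem Inv.one_le_deg [Nontrivial k] {f f' : Tup k} (h : Inv f f') : 1 ≤ deg f := by
  rw [Nat.one_le_iff_ne_zero]
  intro h0
  have h1 : deg (comp f' f) = 1 := by
    rw [h.right]
    apply le_antisymm
    · exact deg_le fun i => (totalDegree_X i).le
    · calc 1 = (X 0 : Po k).totalDegree := (totalDegree_X 0).symm
        _ ≤ _ := totalDegree_le_deg (fun i => (X i : Po k)) 0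
  have h2 := deg_comp_le f' f
  rw [h1, h0, mul_zero] at h2
  exact absurd h2 (by norm_num)

end ring

section abs

variable {k : Type} [CommRing k]

theorem one_le_sz (v : AbsoluteValue k ℝ) (x : Fin 3 → k) : 1 ≤ sz v x := le_max_left _ _

theorem sz_pos (v : AbsoluteValue k ℝ) (x : Fin 3 → k) : 0 < sz v x :=
  lt_of_lt_of_le one_pos (one_le_sz v x)

theorem le_sz (v : AbsoluteValue k ℝ) (x : Fin 3 → k) (i : Fin 3) : v (x i) ≤ sz v x := by
  unfold sz
  fin_cases i
  · exact le_max_of_le_right (le_max_left _ _)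
  · exact le_max_of_le_right (le_max_of_le_right (le_max_left _ _))
  · exact le_max_of_le_right (le_max_of_le_right (le_max_right _ _))

theorem sz_le {v : AbsoluteValue k ℝ} {x : Fin 3 → k} {B : ℝ} (h1 : 1 ≤ B)
    (h : ∀ i, v (x i) ≤ B) : sz v x ≤ B :=
  max_le h1 (max_le (h 0) (max_le (h 1) (h 2)))

end abs

section height

variable {K : IntermediateField ℚ Qb}

theorem sz_finite (F : HFam K) (x : Fin 3 → Qb) : {i | sz (F.abv i) x ≠ 1}.Finite := by
  have h : ∀ j : Fin 3, {i | ¬ F.abv i (x j) ≤ 1}.Finite := by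
    intro j
    by_cases hj : x j = 0
    · have : {i | ¬ F.abv i (x j) ≤ 1} = ∅ := by
        ext i
        simp [hj]
      rw [this]
      exact Set.finite_empty
    · refine (F.finite (x j) hj).subset fun i hi h1 => hi h1.le
  refine (((h 0).union (h 1)).union (h 2)).subset fun i hi => ?_
  by_contra hcon
  simp only [Set.mem_union, Set.mem_ofPred_eq, not_or, not_not] at hcon
  apply hi
  apply le_antisymm _ (one_le_sz _ _)
  apply sz_le le_rfl
  intro j
  fin_cases j
  · exact hcon.1.1
  · exact hcon.1.2
  · exact hcon.2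

theorem log_sz_finite (F : HFam K) (x : Fin 3 → Qb) :
    (Function.support fun i => Real.log (sz (F.abv i) x)).Finite :=
  (sz_finite F x).subset fun i hi h1 => hi (by simp only [h1, Real.log_one])

theorem log_sz_nonneg (v : AbsoluteValue Qb ℝ) (x : Fin 3 → Qb) : 0 ≤ Real.log (sz v x) :=
  Real.log_nonneg (one_le_sz v x)

theorem ht_nonneg (F : HFam K) (x : Fin 3 → Qb) : 0 ≤ F.ht x :=
  finsum_nonneg fun _ => log_sz_nonneg _ x

theorem Const.log_finite {F : HFam K} {C : F.ι → ℝ} (h : Const F C) :
    (Function.support fun i => Real.log (C i)).Finite :=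
  h.finite.subset fun i hi h1 => hi (by simp only [h1, Real.log_one])

theorem Const.log_nonneg {F : HFam K} {C : F.ι → ℝ} (h : Const F C) (i : F.ι) :
    0 ≤ Real.log (C i) := Real.log_nonneg (h.one_le i)

theorem Const.pos {F : HFam K} {C : F.ι → ℝ} (h : Const F C) (i : F.ι) : 0 < C i :=
  lt_of_lt_of_le one_pos (h.one_le i)

theorem Const.one (F : HFam K) : Const F fun _ => 1 :=
  ⟨fun _ => le_rfl, by simp⟩

theorem Const.mul {F : HFam K} {C C' : F.ι → ℝ} (h : Const F C) (h' : Const F C') :
    Const F fun i => C i * C' i := by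
  refine ⟨fun i => one_le_mul_of_one_le_of_one_le (h.one_le i) (h'.one_le i),
    (h.finite.union h'.finite).subset fun i hi => ?_⟩
  by_contra hcon
  simp only [Set.mem_union, Set.mem_ofPred_eq, not_or, not_not] at hcon
  exact hi (by simp only [hcon.1, hcon.2, mul_one])

theorem Const.pow {F : HFam K} {C : F.ι → ℝ} (h : Const F C) (n : ℕ) :
    Const F fun i => C i ^ n := by
  refine ⟨fun i => one_le_pow₀ (h.one_le i), h.finite.subset fun i hi h1 => hi ?_⟩
  simp only [h1, one_pow]

theorem Const.max {F : HFam K} {C C' : F.ι → ℝ} (h : Const F C) (h' : Const F C') :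
    Const F fun i => max (C i) (C' i) := by
  refine ⟨fun i => le_max_of_le_left (h.one_le i),
    (h.finite.union h'.finite).subset fun i hi => ?_⟩
  by_contra hcon
  simp only [Set.mem_union, Set.mem_ofPred_eq, not_or, not_not] at hcon
  exact hi (by simp only [hcon.1, hcon.2, max_self])

/-- comparison of heights -/
theorem ht_compare (F : HFam K) {x y z : Fin 3 → Qb} {n a b : ℝ} (q : Qb) (hq : q ∈ K)
    (hq0 : q ≠ 0) (C : F.ι → ℝ) (hC : Const F C)
    (h : ∀ i, n * Real.log (sz (F.abv i) x) + Real.log (F.abv i q) ≤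
      a * Real.log (sz (F.abv i) y) + b * Real.log (sz (F.abv i) z) + Real.log (C i)) :
    n * F.ht x ≤ a * F.ht y + b * F.ht z + ∑ᶠ i, Real.log (C i) := by
  have hlogq : (Function.support fun i => Real.log (F.abv i q)).Finite :=
    (F.finite q hq0).subset fun i hi h1 => hi (by simp only [h1, Real.log_one])
  have e1 : n * F.ht x = ∑ᶠ i, n * Real.log (sz (F.abv i) x) :=
    mul_finsum _ _
  have e2 : a * F.ht y = ∑ᶠ i, a * Real.log (sz (F.abv i) y) :=
    mul_finsum _ _
  have e3 : b * F.ht z = ∑ᶠ i, b * Real.log (sz (F.abv i) z) :=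
    mul_finsum _ _
  have s1 : (Function.support fun i => n * Real.log (sz (F.abv i) x)).Finite :=
    (log_sz_finite F x).subset fun i hi h1 => hi (by simp only [h1, mul_zero])
  have s2 : (Function.support fun i => a * Real.log (sz (F.abv i) y)).Finite :=
    (log_sz_finite F y).subset fun i hi h1 => hi (by simp only [h1, mul_zero])
  have s3 : (Function.support fun i => b * Real.log (sz (F.abv i) z)).Finite :=
    (log_sz_finite F z).subset fun i hi h1 => hi (by simp only [h1, mul_zero])
  have e0 : n * F.ht x = ∑ᶠ i, (n * Real.log (sz (F.abv i) x) + Real.log (F.abv i q)) := by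
    rw [finsum_add_distrib s1 hlogq, F.prod q hq hq0, add_zero, e1]
  have e4 : a * F.ht y + b * F.ht z + ∑ᶠ i, Real.log (C i) =
      ∑ᶠ i, (a * Real.log (sz (F.abv i) y) + b * Real.log (sz (F.abv i) z) +
        Real.log (C i)) := by
    rw [finsum_add_distrib _ hC.log_finite, finsum_add_distrib s2 s3, e2, e3]
    exact (s2.union s3).subset (Function.support_add _ _)
  rw [e0, e4]
  apply finsum_le_finsum'
  · exact (s1.union hlogq).subset (Function.support_add _ _)
  · refine (((s2.union s3).subset (Function.support_add _ _)).union hC.log_finite).subset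
      (Function.support_add _ _)
  · exact h

end height

end Pool.Agent.H8.ZA
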