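import Pool.Agent.H8.ZA.Targets

/-!
# Additional targets: arbitrary algebraically closed fields of characteristic zero
-/

open MvPolynomial
open Pool.Agent.H12.ZD (pmap v NoInv DenseOrbit)

namespace Pool.Agent.H8.ZA

/-- a component of the closure of an orbit is periodic: the strong form of `T_ORB`, the prime
ideal `I` contains all polynomials vanishing on the orbit -/
def T_ORX : Prop := ∀ (k : Type) [Field k] (f f' : Tup k) (x : Fin 3 → k) (h : Po k),
  Inv f f' → h ≠ 0 → (∀ n, eval ((pmap f)^[n] x) h = 0) →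
  ∃ (I : Ideal (Po k)) (r : ℕ), I.IsPrime ∧ I ≠ ⊥ ∧ 1 ≤ r ∧
    Ideal.comap (aeval (it f r) : Po k →ₐ[k] Po k) I = I ∧ (∀ q ∈ I, eval x q = 0) ∧
    ∀ q : Po k, (∀ n, eval ((pmap f)^[n] x) q = 0) → q ∈ I

/-- specialization of finitely many elements of an algebraically closed field of characteristic
zero to algebraic numbers, with control of algebraic dependence -/
def T_SPC : Prop := ∀ (k : Type) [Field k] [IsAlgClosed k] [CharZero k] (S E : Finset k),
  (∀ e ∈ E, e ≠ 0) → ∃ (ι : Qb →+* k) (A : Subring k) (φ : A →+* Qb),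
    (∀ a ∈ S, a ∈ A) ∧ (∀ (e : k) (he : e ∈ A), e ∈ E → φ ⟨e, he⟩ ≠ 0) ∧ (∀ e ∈ E, e ∈ A) ∧
    (∀ z, ∃ h : ι z ∈ A, φ ⟨ι z, h⟩ = z) ∧
    ∀ F : MvPolynomial (Fin 2) k, F ≠ 0 → ∃ F' : MvPolynomial (Fin 2) Qb, F' ≠ 0 ∧
      ∀ y : Fin 2 → A, eval (fun i => (y i : k)) F = 0 → eval (fun i => φ (y i)) F' = 0

/-- two variables are algebraically dependent modulo a prime ideal whose quotient has dimension at
most one -/
def T_DEP : Prop := ∀ (k : Type) [Field k] (I : Ideal (Po k)), I.IsPrime → I ≠ ⊥ →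
  (∀ P : Po k, I ≠ Ideal.span {P}) → ∀ u w : Po k, ∃ F : MvPolynomial (Fin 2) k, F ≠ 0 ∧
    aeval ![u, w] F ∈ I

/-- modulo an irreducible polynomial two of the variables are algebraically independent -/
def T_IND : Prop := ∀ (k : Type) [Field k] (P : Po k), (Ideal.span {P}).IsPrime → P ≠ 0 →
  ∃ i j : Fin 3, ∀ F : MvPolynomial (Fin 2) k, F ≠ 0 →
    aeval ![(X i : Po k), X j] F ∉ Ideal.span {P}

end Pool.Agent.H8.ZA
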