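import Pool.Agent.H8.ZA.Main2
import Pool.Agent.H8.ZA.KEY
import Pool.Agent.H14.ZA.AXP
import Pool.Agent.H86.ZA.AXC
import Pool.Agent.H86.ZA.BEZ
import Pool.Agent.H54.ZA.CAL
import Pool.Agent.H94.ZA.COP
import Pool.Agent.H86.ZA.CUR
import Pool.Agent.H85.ZA.DEN
import Pool.Agent.H20.ZA.DEP
import Pool.Agent.H14.ZA.DIM
import Pool.Agent.H60.ZA.FBA
import Pool.Agent.H50.ZA.FRO
import Pool.Agent.H85.ZA.FRX
import Pool.Agent.H54.ZA.Gen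
import Pool.Agent.H31.ZA.GNO
import Pool.Agent.H60.ZA.HUB
import Pool.Agent.H20.ZA.IND
import Pool.Agent.H85.ZA.ISO
import Pool.Agent.H19.ZA.LIN
import Pool.Agent.H94.ZA.LOZ
import Pool.Agent.H67.ZA.NDG
import Pool.Agent.H86.ZA.NOE
import Pool.Agent.H67.ZA.NRM
import Pool.Agent.H19.ZA.ORB
import Pool.Agent.H85.ZA.PER
import Pool.Agent.H50.ZA.PFX
import Pool.Agent.H14.ZA.PIT
import Pool.Agent.H31.ZA.PSF
import Pool.Agent.H94.ZA.RED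
import Pool.Agent.H60.ZA.REV
import Pool.Agent.H19.ZA.RNK
import Pool.Agent.H85.ZA.SNF
import Pool.Agent.H14.ZA.SPC
import Pool.Agent.H92.ZA.UPR
import Pool.Agent.H50.ZA.UPZ
import Pool.Agent.H2.ZA.VAL
import Pool.Agent.H54.ZA.WBD

/-!
# Zariski dense orbits of automorphisms of affine 3-space: the unconditional theorem
-/

open MvPolynomial
open Pool.Agent.H12.ZD (pmap v NoInv DenseOrbit)

namespace Pool.Agent.H8.ZA.F

theorem ISO : T_ISO := Pool.Agent.H85.ZA.pf_ISO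
theorem BEZ : T_BEZ := Pool.Agent.H86.ZA.pf_BEZ
theorem COP : T_COP := Pool.Agent.H94.ZA.pf_COP
theorem VAL : T_VAL := Pool.Agent.H2.ZA.pf_VAL
theorem SNF : T_SNF := Pool.Agent.H85.ZA.pf_SNF
theorem NRM : T_NRM := Pool.Agent.H67.ZA.pf_NRM SNF
theorem SYM : T_SYM := Pool.Agent.H54.ZA.pf_SYM
theorem UPR : T_UPR := Pool.Agent.H92.ZA.pf_UPR VAL NRM SYM
theorem UPZ : T_UPZ := Pool.Agent.H50.ZA.pf_UPZ ISO BEZ COP UPR
theorem LOZ : T_LOZ := Pool.Agent.H94.ZA.pf_LOZ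
theorem RNK : T_RNK := Pool.Agent.H19.ZA.pf_RNK ISO BEZ COP UPZ LOZ
theorem DIM : T_DIM := Pool.Agent.H14.ZA.pf_DIM
theorem GNB : T_GNB := Pool.Agent.H54.ZA.pf_GNB
theorem GNC : T_GNC := Pool.Agent.H54.ZA.pf_GNC
theorem GND : T_GND := Pool.Agent.H54.ZA.pf_GND
theorem DEN : T_DEN := Pool.Agent.H85.ZA.pf_DEN GND
theorem CAL : T_CAL := Pool.Agent.H54.ZA.pf_CAL
theorem AXC : T_AXC := Pool.Agent.H86.ZA.pf_AXC ISO RNK DIM GNB GNC DEN CAL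
theorem AUX : T_AUX := Pool.Agent.H14.ZA.pf_AUX AXC
theorem NOE : T_NOE := Pool.Agent.H86.ZA.pf_NOE
theorem NDG : T_NDG := Pool.Agent.H67.ZA.pf_NDG
theorem HUB : T_HUB := Pool.Agent.H8.ZA.pf_HUB
theorem CUR : T_CUR := Pool.Agent.H86.ZA.pf_CUR NOE NDG HUB
theorem DEP : T_DEP := Pool.Agent.H20.ZA.pf_DEP NOE
theorem FBA : T_FBA := Pool.Agent.H8.ZA.pf_FBA
theorem RED : T_RED := Pool.Agent.H94.ZA.pf_RED
theorem FRX : T_FRX := Pool.Agent.H85.ZA.pf_FRX FBA RED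
theorem FRO : T_FRO := Pool.Agent.H50.ZA.pf_FRO FRX
theorem GNO : T_GNO := Pool.Agent.H31.ZA.pf_GNO
theorem GRO : T_GRO := Pool.Agent.H54.ZA.pf_GRO
theorem IND : T_IND := Pool.Agent.H20.ZA.pf_IND
theorem WBD : T_WBD := Pool.Agent.H54.ZA.pf_WBD HUB
theorem KEY : T_KEY := Pool.Agent.H8.ZA.pf_KEY AUX GNO WBD HUB
theorem LIN : T_LIN := Pool.Agent.H19.ZA.pf_LIN HUB
theorem ORB : T_ORB := Pool.Agent.H19.ZA.pf_ORB
theorem PSF : T_PSF := Pool.Agent.H31.ZA.pf_PSF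
theorem PIT : T_PIT := Pool.Agent.H14.ZA.pf_PIT
theorem PER : T_PER := Pool.Agent.H85.ZA.pf_PER PSF PIT
theorem PFX : T_PFX := Pool.Agent.H50.ZA.pf_PFX
theorem REV : T_REV := Pool.Agent.H8.ZA.pf_REV
theorem SPC : T_SPC := Pool.Agent.H14.ZA.pf_SPC
theorem ORX : T_ORX := Pool.Agent.H19.ZA.pf_ORX

/-- the main theorem -/
theorem main (k : Type) [Field k] [IsAlgClosed k] [CharZero k] (f f' : Tup k)
    (hf : Inv f f') (hinv : NoInv f) (c : ℝ) (hc : 1 < c)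
    (hgrow : ∀ N, ∃ n ≥ N, c ^ n ≤ (deg (it f n) : ℝ)) (b : Po k) (hb : b ≠ 0) :
    ∃ x : Fin 3 → k,
      (∀ n, eval ((pmap f)^[n] x) b ≠ 0 ∧ eval ((pmap f')^[n] x) b ≠ 0) ∧ DenseOrbit f x :=
  K.main KEY PFX LIN PER ORX REV CUR FRO GRO SPC DEP IND k f f' hf hinv c hc hgrow b hb

end Pool.Agent.H8.ZA.F
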