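import Pool.Agent.H12.ZD.Grow

/-!
# Zariski dense orbits of automorphisms of affine 3-space: definitions
-/

open MvPolynomial

namespace Pool.Agent.H8.ZA

/-- the algebraic numbers -/
abbrev Qb : Type := AlgebraicClosure ℚ

/-- polynomials in three variables -/
abbrev Po (k : Type) [CommRing k] : Type := MvPolynomial (Fin 3) k

/-- polynomial self-maps of affine 3-space -/
abbrev Tup (k : Type) [CommRing k] : Type := Fin 3 → MvPolynomial (Fin 3) k

variable {k : Type} [CommRing k]

/-- composition `f ∘ g` -/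
noncomputable def comp (f g : Tup k) : Tup k := fun i => aeval g (f i)

/-- `f` and `f'` are inverse automorphisms -/
structure Inv (f f' : Tup k) : Prop where
  left : comp f f' = fun i => X i
  right : comp f' f = fun i => X i

/-- the `n`-th iterate of `f` -/
noncomputable def it (f : Tup k) (n : ℕ) : Tup k := (comp f)^[n] (fun i => X i)

/-- the degree of a tuple -/
noncomputable def deg (f : Tup k) : ℕ := Finset.univ.sup fun i => (f i).totalDegree

/-- the size `max (1, |x_0|, |x_1|, |x_2|)` -/
noncomputable def sz (v : AbsoluteValue k ℝ) (x : Fin 3 → k) : ℝ :=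
  max 1 (max (v (x 0)) (max (v (x 1)) (v (x 2))))

/-- an absolute value is non-archimedean -/
def NA (v : AbsoluteValue k ℝ) : Prop := ∀ a b : k, v (a + b) ≤ max (v a) (v b)

/-- a family of absolute values of the field of algebraic numbers satisfying the product formula
on the number field `K` -/
structure HFam (K : IntermediateField ℚ Qb) where
  /-- the index set -/
  ι : Type
  /-- the absolute values -/
  abv : ι → AbsoluteValue Qb ℝ
  /-- the archimedean ones -/
  arch : Finset ι
  arch_nonempty : arch.Nonempty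
  na : ∀ i, i ∉ arch → NA (abv i)
  finite : ∀ x : Qb, x ≠ 0 → {i | abv i x ≠ 1}.Finite
  prod : ∀ x : Qb, x ∈ K → x ≠ 0 → ∑ᶠ i, Real.log (abv i x) = 0
  arch_nat : ∀ i ∈ arch, ∀ n : ℕ, abv i (n : Qb) = n

/-- the logarithmic height of a point -/
noncomputable def HFam.ht {K : IntermediateField ℚ Qb} (F : HFam K) (x : Fin 3 → Qb) : ℝ :=
  ∑ᶠ i, Real.log (sz (F.abv i) x)

/-- a family of constants: at least `1`, and `1` almost everywhere -/
structure Const {K : IntermediateField ℚ Qb} (F : HFam K) (C : F.ι → ℝ) : Prop where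
  one_le : ∀ i, 1 ≤ C i
  finite : {i | C i ≠ 1}.Finite

section field

variable {L : Type} [Field L]

/-- the affine linear form with coefficients `u` -/
noncomputable def lin (u : Fin 4 → L) : Po L := C (u 0) + ∑ i : Fin 3, C (u i.succ) * X i

/-- the parametrisation of the plane `lin u = 0` by the first two coordinates -/
noncomputable def pl (u : Fin 4 → L) : Fin 3 → MvPolynomial (Fin 2) L :=
  ![X 0, X 1, C (-(u 3)⁻¹) * (C (u 0) + C (u 1) * X 0 + C (u 2) * X 1)]

/-- restriction to the plane `lin u = 0` of functions of `z = Z(x)` -/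
noncomputable def rho (Z : Tup L) (u : Fin 4 → L) : Po L →ₐ[L] MvPolynomial (Fin 2) L :=
  aeval fun i => aeval (pl u) (Z i)

/-- the space spanned by `P ^ a * z_2 ^ i * z_0 ^ b * z_1 ^ c`, `a ≤ k`, `i < D`, `b + c ≤ l` -/
noncomputable def Vsp (P : Po L) (k D l : ℕ) : Submodule L (Po L) :=
  Submodule.span L {q | ∃ a i b c : ℕ, a ≤ k ∧ i < D ∧ b + c ≤ l ∧
    q = P ^ a * X 2 ^ i * (X 0 ^ b * X 1 ^ c)}

/-- the space spanned by `y ^ a * z ^ β`, `a ≤ A`, `|β| ≤ B` -/
noncomputable def Wsp (y : Po L) (z : Tup L) (A B : ℕ) : Submodule L (Po L) :=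
  Submodule.span L {q | ∃ (a : ℕ) (β : Fin 3 → ℕ), a ≤ A ∧ ∑ i, β i ≤ B ∧
    q = y ^ a * ∏ i, z i ^ β i}

/-- the generic linear form number `j` in the coordinates `x` -/
noncomputable def Lf {R : Type} [CommRing R] (N : ℕ) (x : Fin 3 → R) (j : Fin N) :
    MvPolynomial (Fin N × Fin 4) R :=
  X (j, 0) + ∑ i : Fin 3, C (x i) * X (j, i.succ)

/-- the conclusion of the auxiliary construction -/
def Aux (N A B : ℕ) (x : Tup L) (y : Po L) (z : Tup L) : Prop :=
  ∃ s s' : MvPolynomial (Fin N × Fin 4) (Po L), s' ≠ 0 ∧ s = (∏ j, Lf N x j) * s' ∧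
    ∀ γ, coeff γ s ∈ Wsp y z A B

/-- the field generated by the coefficients of `N` generic linear forms -/
abbrev GF (L : Type) [Field L] (N : ℕ) : Type :=
  FractionRing (MvPolynomial (Fin N × Fin 4) L)

/-- the coefficients of the generic linear form number `j` -/
noncomputable def uu (L : Type) [Field L] (N : ℕ) (j : Fin N) (i : Fin 4) : GF L N :=
  algebraMap (MvPolynomial (Fin N × Fin 4) L) (GF L N) (X (j, i))

/-- base change to the generic field -/
noncomputable def bc (N : ℕ) : Po L →+* Po (GF L N) := map (algebraMap L (GF L N))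

end field

end Pool.Agent.H8.ZA
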