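import Pool.Agent.H8.ZA.Targets

/-!
# Zariski dense orbits of automorphisms of affine 3-space: the assembly
-/

open MvPolynomial
open Pool.Agent.H12.ZD (pmap v NoInv DenseOrbit)

namespace Pool.Agent.H8.ZA

/-- exponential growth excludes slow growth along a subsequence -/
theorem no_slow (h : ℕ → ℝ) {κ : ℝ} (hκ : 2 ≤ κ) (h0 : 0 < h 0) (hh : ∀ n, κ * h n ≤ h (n + 1))
    {r M : ℕ} (hr : 1 ≤ r) (hslow : ∀ n, ∃ c : ℝ, ∀ j, h (r * n * (j + 1)) ≤ M * h (r * n * j) + c) :
    False := by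
  have hpos : ∀ n, 0 < h n := by
    intro n
    induction n with
    | zero => exact h0
    | succ n ih => exact lt_of_lt_of_le (mul_pos (by linarith) ih) (hh n)
  have hpow : ∀ n m, (2 : ℝ) ^ m * h n ≤ h (n + m) := by
    intro n m
    induction m with
    | zero => simp
    | succ m ih =>
      calc (2 : ℝ) ^ (m + 1) * h n = 2 * (2 ^ m * h n) := by ring
        _ ≤ 2 * h (n + m) := by linarith
        _ ≤ κ * h (n + m) := mul_le_mul_of_nonneg_right hκ (hpos _).le
        _ ≤ h (n + m + 1) := hh _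
        _ = h (n + (m + 1)) := by rw [Nat.add_assoc]
  obtain ⟨c, hc⟩ := hslow (M + 1)
  have hM : (M : ℝ) + 1 ≤ 2 ^ (r * (M + 1)) := by
    have h1 : M + 1 ≤ 2 ^ (r * (M + 1)) := by
      calc M + 1 ≤ 2 ^ (M + 1) := Nat.lt_two_pow_self.le
        _ ≤ 2 ^ (r * (M + 1)) := Nat.pow_le_pow_right (by norm_num) (Nat.le_mul_of_pos_left _ hr)
    exact_mod_cast h1
  have hle : ∀ j, h (r * (M + 1) * j) ≤ c := by
    intro j
    have h1 := hc j
    have h2 := hpow (r * (M + 1) * j) (r * (M + 1))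
    have h3 : r * (M + 1) * j + r * (M + 1) = r * (M + 1) * (j + 1) := by ring
    rw [h3] at h2
    have h4 := mul_le_mul_of_nonneg_right hM (hpos (r * (M + 1) * j)).le
    nlinarith
  have htend : ∀ j : ℕ, (j : ℝ) * h 0 ≤ h (r * (M + 1) * j) := by
    intro j
    have h2 := hpow 0 (r * (M + 1) * j)
    rw [Nat.zero_add] at h2
    refine le_trans (mul_le_mul_of_nonneg_right ?_ h0.le) h2
    have h1 : j ≤ 2 ^ (r * (M + 1) * j) := by
      calc j ≤ 2 ^ j := Nat.lt_two_pow_self.le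
        _ ≤ 2 ^ (r * (M + 1) * j) :=
          Nat.pow_le_pow_right (by norm_num) (Nat.le_mul_of_pos_left _ (by positivity))
    exact_mod_cast h1
  obtain ⟨j, hj⟩ := exists_nat_gt (c / h 0)
  have h1 := htend j
  have h2 := hle j
  rw [div_lt_iff₀ h0] at hj
  linarith

/-- a number field containing the values of a polynomial at the points of a line and of their
orbits -/
theorem exists_field (f : Tup Qb) (b : Po Qb) (a : Fin 3 → Qb) :
    ∃ K : IntermediateField ℚ Qb, FiniteDimensional ℚ K ∧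
      (∀ i, a i ∈ K) ∧ (∀ x : Fin 3 → Qb, (∀ i, x i ∈ K) → eval x b ∈ K) ∧
      ∀ x : Fin 3 → Qb, (∀ i, x i ∈ K) → ∀ n i, (pmap f)^[n] x i ∈ K := by
  classical
  set S : Finset Qb := (Finset.univ.biUnion fun i => (f i).coeffs) ∪ b.coeffs ∪
    Finset.univ.image a with hS
  set K := IntermediateField.adjoin ℚ (S : Set Qb) with hK
  have hfin : FiniteDimensional ℚ K :=
    IntermediateField.finiteDimensional_adjoin fun x _ =>
      (Algebra.IsAlgebraic.isAlgebraic (R := ℚ) x).isIntegral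
  have hsub : (S : Set Qb) ⊆ K := IntermediateField.subset_adjoin ℚ _
  have heval : ∀ (q : Po Qb) (x : Fin 3 → Qb), (∀ c ∈ q.coeffs, c ∈ K) → (∀ i, x i ∈ K) →
      eval x q ∈ K := by
    intro q x hq hx
    rw [eval_eq']
    apply sum_mem
    intro m hm
    apply mul_mem
    · apply hq
      rw [mem_coeffs_iff]
      exact ⟨m, hm, rfl⟩
    · exact prod_mem fun j _ => pow_mem (hx j) _
  refine ⟨K, hfin, ?_, ?_, ?_⟩
  · intro i
    apply hsub
    rw [hS, Finset.coe_union]
    right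
    simp
  · intro x hx
    apply heval b x _ hx
    intro c hc
    apply hsub
    rw [hS, Finset.coe_union, Finset.coe_union]
    left
    right
    exact hc
  · intro x hx n
    induction n with
    | zero => exact hx
    | succ n ih =>
      intro i
      rw [Function.iterate_succ_apply']
      apply heval (f i) _ _ ih
      intro c hc
      apply hsub
      rw [hS, Finset.coe_union, Finset.coe_union]
      left
      left
      rw [Finset.mem_coe, Finset.mem_biUnion]
      exact ⟨i, Finset.mem_univ i, hc⟩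

/-- consequences of the growth condition -/
theorem Good.real {d e D : ℕ} (hd : 1 ≤ d) (_he : 1 ≤ e) (hD : 1 ≤ D) (hD2 : D ≤ d * d)
    (h : Good d e D) :
    (2 : ℝ) ≤ 130 * d * (max d e : ℕ) / D ∧
    130 * d * (max d e : ℕ) / D + 1 ≤ (D : ℝ) / (128 * d) ∧
    130 * d * (max d e : ℕ) / D + 1 ≤ (d : ℝ) := by
  have hd' : (1 : ℝ) ≤ d := by exact_mod_cast hd
  have hD' : (1 : ℝ) ≤ D := by exact_mod_cast hD
  have hD2' : (D : ℝ) ≤ d * d := by exact_mod_cast hD2
  have hΛ : (d : ℝ) ≤ ((max d e : ℕ) : ℝ) := by exact_mod_cast le_max_left d e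
  have hDpos : (0 : ℝ) < D := by linarith
  have hdpos : (0 : ℝ) < d := by linarith
  have hG : (128 : ℝ) * d * (130 * d * ((max d e : ℕ) : ℝ) + D) ≤ (D : ℝ) ^ 2 := by
    exact_mod_cast h
  have h2 : 130 * (d : ℝ) * ((max d e : ℕ) : ℝ) / D + 1 ≤ (D : ℝ) / (128 * d) := by
    rw [div_add_one hDpos.ne', div_le_div_iff₀ hDpos (by positivity)]
    nlinarith
  refine ⟨?_, h2, h2.trans ?_⟩
  · rw [le_div_iff₀ hDpos]
    nlinarith
  · rw [div_le_iff₀ (by positivity)]
    nlinarith

/-- one step of the recursion -/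
theorem step_real {d D Λ κ c a b b' : ℝ} (hd : 1 ≤ d) (hD : 1 ≤ D) (hκ : κ = 130 * d * Λ / D)
    (hκD : κ + 1 ≤ D / (128 * d)) (h1 : D * b ≤ 64 * d * b' + 65 * d * Λ * a + c)
    (h2 : κ * a ≤ b) (h3 : c ≤ b) (h4 : 0 ≤ b) : κ * b ≤ b' := by
  have hDpos : 0 < D := by linarith
  have hdpos : 0 < d := by linarith
  have e1 : 65 * d * Λ * a = D / 2 * (κ * a) := by
    rw [hκ]
    field_simp
    ring
  have e2 : D / 2 * (κ * a) ≤ D / 2 * b := mul_le_mul_of_nonneg_left h2 (by positivity)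
  have e3 : (κ + 1) * b ≤ D / (128 * d) * b := mul_le_mul_of_nonneg_right hκD h4
  have e4 : 64 * d * (D / (128 * d) * b) = D / 2 * b := by
    field_simp
    ring
  have e5 : 64 * d * ((κ + 1) * b) ≤ D / 2 * b := by
    rw [← e4]
    exact mul_le_mul_of_nonneg_left e3 (by positivity)
  have e6 : b ≤ 64 * d * b := by
    have : 1 * b ≤ 64 * d * b := mul_le_mul_of_nonneg_right (by linarith) h4
    linarith
  have e7 : 64 * d * (κ * b) ≤ 64 * d * b' := by
    have : 64 * d * ((κ + 1) * b) = 64 * d * (κ * b) + 64 * d * b := by ring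
    linarith
  exact le_of_mul_le_mul_left e7 (by positivity)

/-- the first step -/
theorem first_real {d κ c a b : ℝ} (hκd : κ + 1 ≤ d) (h1 : d * a ≤ b + c) (h2 : c ≤ a)
    (h3 : 0 ≤ a) : κ * a ≤ b := by
  have : (κ + 1) * a ≤ d * a := mul_le_mul_of_nonneg_right hκd h3
  linarith

/-- the core: an automorphism with a good iterate -/
theorem core (hKEY : T_KEY) (hPFX : T_PFX) (hLIN : T_LIN) (hPER : T_PER) (hORB : T_ORB)
    (hCUR : T_CUR) (hFRO : T_FRO) (f f' : Tup Qb) (hf : Inv f f') (hinv : NoInv f) (m : ℕ)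
    (_hm : 1 ≤ m) (hgood : Good (deg (it f m)) (deg (it f' m)) (deg (it f (m + m))))
    (b : Po Qb) (hb : b ≠ 0) :
    ∃ x : Fin 3 → Qb,
      (∀ n, eval ((pmap f)^[n] x) b ≠ 0 ∧ eval ((pmap f')^[n] x) b ≠ 0) ∧ DenseOrbit f x := by
  set g := it f m with hg
  set g' := it f' m with hg'
  have hgg : Inv g g' := hf.it m
  have hcomp : comp g g = it f (m + m) := (it_add f m m).symm
  set d := deg g with hd
  set e := deg g' with he
  set D := deg (comp g g) with hD
  rw [← hcomp] at hgood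
  have hd1 : 1 ≤ d := hgg.one_le_deg
  have he1 : 1 ≤ e := hgg.symm.one_le_deg
  have hD1 : 1 ≤ D := by
    rw [hD, hcomp]
    exact (hf.it (m + m)).one_le_deg
  have hD2 : D ≤ d * d := deg_comp_le g g
  obtain ⟨hκ2, hκD, hκd⟩ := Good.real hd1 he1 hD1 hD2 hgood
  set Λ := max d e with hΛ
  set κ : ℝ := 130 * d * (Λ : ℕ) / D with hκ
  obtain ⟨b₁, hb₁, hkey⟩ := hKEY g g' d e D Λ hgg rfl rfl rfl (le_max_left _ _) (le_max_right _ _)
  obtain ⟨bS, hbS, hper⟩ := hPER Qb f f' hf hinv
  obtain ⟨p, a, hpa⟩ := hFRO f f' (b * bS * b₁) hf (mul_ne_zero (mul_ne_zero hb hbS) hb₁)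
  obtain ⟨u, hu⟩ := hLIN g d rfl hd1
  obtain ⟨K, hK, haK, hbK, horbK⟩ := exists_field f b₁ a
  obtain ⟨F⟩ := hPFX K hK
  obtain ⟨c₁, hc₁⟩ := hkey K F
  obtain ⟨c₂, hc₂⟩ := hu K F a
  -- choose the point
  obtain ⟨t₀, ht₀⟩ := exists_nat_gt (Real.exp (max (|c₂|) (|c₁|) + 1 + c₂))
  set t : ℕ := (p : ℕ) * (t₀ + 1) with ht
  have hp1 : 1 ≤ (p : ℕ) := p.2.one_lt.le
  have ht1 : 1 ≤ t := Nat.one_le_iff_ne_zero.mpr (by
    rw [ht]
    exact Nat.mul_ne_zero (by omega) (by omega))
  have htt : t₀ ≤ t := by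
    rw [ht]
    nlinarith
  set x : Fin 3 → Qb := fun i => a i + t * u i with hx
  have hxa : ∀ i, v p (x i - a i) < 1 := by
    intro i
    have h1 : x i - a i = (t : Qb) * (u i : Qb) := by
      simp only [hx]
      ring
    rw [h1, Pool.Agent.H12.ZD.v_mul]
    have h2 : v p (t : Qb) < 1 := Pool.Agent.H12.ZD.v_natCast_lt p (Dvd.intro _ rfl)
    have h3 : v p (u i : Qb) ≤ 1 := Pool.Agent.H12.ZD.v_intCast_le p (u i)
    calc v p (t : Qb) * v p (u i : Qb) ≤ v p (t : Qb) * 1 :=
          mul_le_mul_of_nonneg_left h3 (Pool.Agent.H12.ZD.v_nonneg p _)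
      _ < 1 := by rw [mul_one]; exact h2
  have hne := hpa x hxa
  have hval : ∀ n, eval ((pmap f)^[n] x) b ≠ 0 ∧ eval ((pmap f)^[n] x) bS ≠ 0 ∧
      eval ((pmap f)^[n] x) b₁ ≠ 0 := by
    intro n
    have h1 := (hne n).1
    rw [map_mul, map_mul] at h1
    exact ⟨left_ne_zero_of_mul (left_ne_zero_of_mul h1), right_ne_zero_of_mul
      (left_ne_zero_of_mul h1), right_ne_zero_of_mul h1⟩
  have hval' : ∀ n, eval ((pmap f')^[n] x) b ≠ 0 := by
    intro n
    have h1 := (hne n).2
    rw [map_mul, map_mul] at h1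
    exact left_ne_zero_of_mul (left_ne_zero_of_mul h1)
  have hxK : ∀ i, x i ∈ K := by
    intro i
    simp only [hx]
    apply add_mem (haK i)
    exact mul_mem (natCast_mem K t) (intCast_mem K (u i))
  -- the heights
  set h : ℕ → ℝ := fun n => F.ht ((pmap g)^[n] x) with hh
  have hit : ∀ n, (pmap g)^[n] x = (pmap f)^[m * n] x := fun n => pmap_it_iterate f m n x
  have h0 : max (|c₂|) (|c₁|) + 1 ≤ h 0 := by
    have h1 := (hc₂ t ht1).2
    have h2 : max (|c₂|) (|c₁|) + 1 + c₂ ≤ Real.log t := by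
      rw [Real.le_log_iff_exp_le (by exact_mod_cast ht1)]
      exact ht₀.le.trans (by exact_mod_cast htt)
    have h3 : h 0 = F.ht x := rfl
    rw [h3]
    linarith
  have hstep : ∀ n, κ * h n ≤ h (n + 1) ∧ h 0 ≤ h n := by
    intro n
    induction n with
    | zero =>
      refine ⟨?_, le_rfl⟩
      have h1 := (hc₂ t ht1).1
      have h2 : h (0 + 1) = F.ht (pmap g x) := rfl
      have h3 : h 0 = F.ht x := rfl
      rw [h2, h3]
      have h4 : c₂ ≤ F.ht x := by
        rw [← h3]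
        exact (le_abs_self _).trans (le_trans (le_max_left _ _) (by linarith))
      exact first_real hκd h1 h4 (ht_nonneg F x)
    | succ n ih =>
      have hn1 : h 0 ≤ h (n + 1) := by
        have h1 : 0 ≤ h n := ht_nonneg F _
        have h2 : 1 * h n ≤ κ * h n := mul_le_mul_of_nonneg_right (by linarith) h1
        linarith [ih.1, ih.2]
      refine ⟨?_, hn1⟩
      have hy : pmap g ((pmap g)^[n + 1] x) = (pmap g)^[n + 1 + 1] x :=
        (Function.iterate_succ_apply' _ _ _).symm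
      have hz : pmap g' ((pmap g)^[n + 1] x) = (pmap g)^[n] x := by
        rw [Function.iterate_succ_apply']
        exact hgg.pmap_right _
      have h1 := hc₁ ((pmap g)^[n + 1] x) (hbK _ fun i => by
        rw [hit]
        exact horbK x hxK _ i) (by
        rw [hit]
        exact (hval _).2.2)
      rw [hy, hz] at h1
      change (D : ℝ) * h (n + 1) ≤ 64 * d * h (n + 1 + 1) + 65 * d * Λ * h n + c₁ at h1
      have hd' : (1 : ℝ) ≤ d := by exact_mod_cast hd1
      have hD' : (1 : ℝ) ≤ D := by exact_mod_cast hD1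
      have h7 : c₁ ≤ h (n + 1) := by
        calc c₁ ≤ |c₁| := le_abs_self _
          _ ≤ max |c₂| |c₁| := le_max_right _ _
          _ ≤ h 0 := by linarith
          _ ≤ h (n + 1) := hn1
      exact step_real hd' hD' hκ hκD h1 ih.1 h7 (ht_nonneg F _)
  have hpos0 : 0 < h 0 := by
    have : 0 ≤ max |c₂| |c₁| := le_max_of_le_left (abs_nonneg _)
    linarith
  refine ⟨x, fun n => ⟨(hval n).1, hval' n⟩, ?_⟩
  intro q hq
  by_contra hq0
  obtain ⟨I, r, hI, hI0, hr, hIr, hIx⟩ := hORB Qb f f' x q hf hq0 hq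
  by_cases hprin : ∃ P : Po Qb, I = Ideal.span {P}
  · obtain ⟨P, hP⟩ := hprin
    have hP0 : P ≠ 0 := by
      rintro rfl
      apply hI0
      rw [hP]
      simp
    have hPprime : Prime P := by
      rw [← Ideal.span_singleton_prime hP0, ← hP]
      exact hI
    have hPir : Irreducible P := hPprime.irreducible
    -- `P ∘ f ^ r` is a multiple of `P`
    have h1 : aeval (it f r) P ∈ I := by
      have h2 : P ∈ Ideal.comap (aeval (it f r) : Po Qb →ₐ[Qb] Po Qb) I := by
        rw [hIr, hP]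
        exact Ideal.mem_span_singleton_self P
      exact h2
    rw [hP, Ideal.mem_span_singleton] at h1
    obtain ⟨w, hw⟩ := h1
    -- and conversely
    have hfr := hf.it r
    have hPI : P ∈ I := by
      rw [hP]
      exact Ideal.mem_span_singleton_self P
    have h3' : aeval (it f' r) P ∈ Ideal.comap (aeval (it f r) : Po Qb →ₐ[Qb] Po Qb) I := by
      rw [Ideal.mem_comap, hfr.aeval_right]
      exact hPI
    have h3 : aeval (it f' r) P ∈ I := hIr ▸ h3'
    rw [hP, Ideal.mem_span_singleton] at h3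
    obtain ⟨w', hw'⟩ := h3
    have h4 : P = P * (w * aeval (it f r) w') := by
      have h5 := congrArg (aeval (it f r) : Po Qb →ₐ[Qb] Po Qb) hw'
      rw [hfr.aeval_right, map_mul, hw] at h5
      rw [← mul_assoc]
      exact h5
    have h6 : w * aeval (it f r) w' = 1 := by
      have : P * (w * aeval (it f r) w') = P * 1 := by rw [← h4, mul_one]
      exact mul_left_cancel₀ hP0 this
    have h7 : IsUnit w := IsUnit.of_mul_eq_one _ h6
    obtain ⟨c, hc⟩ : ∃ c : Qb, w = C c := by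
      rw [MvPolynomial.isUnit_iff_eq_C_of_isReduced] at h7
      obtain ⟨c, -, hc⟩ := h7
      exact ⟨c, hc⟩
    have h8 := hper P r c hPir hr (by rw [hw, hc, mul_comm])
    obtain ⟨w'', hw''⟩ := h8
    apply (hval 0).2.1
    rw [hw'', map_mul, Function.iterate_zero, id]
    rw [hIx P hPI, zero_mul]
  · have hnot : ∀ P : Po Qb, I ≠ Ideal.span {P} := fun P hP => hprin ⟨P, hP⟩
    obtain ⟨M, hM⟩ := hCUR f f' I r hf hI hI0 hnot hIr
    -- the zero set is invariant
    have hV : ∀ y : Fin 3 → Qb, (∀ q ∈ I, eval y q = 0) →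
        ∀ n, ∀ q ∈ I, eval ((pmap f)^[r * n] y) q = 0 := by
      intro y hy n
      induction n with
      | zero => exact hy
      | succ n ih =>
        intro q hq
        have h1 : (pmap f)^[r * (n + 1)] y = pmap (it f r) ((pmap f)^[r * n] y) := by
          rw [Nat.mul_succ, Nat.add_comm, Function.iterate_add_apply, pmap_it]
        rw [h1, ← eval_aeval]
        apply ih
        have h2 : q ∈ Ideal.comap (aeval (it f r) : Po Qb →ₐ[Qb] Po Qb) I := by rwa [hIr]
        exact h2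
    apply no_slow h hκ2 hpos0 (fun n => (hstep n).1) hr (M := M)
    intro n
    obtain ⟨c, hc⟩ := hM (m * n) K F
    refine ⟨c, fun j => ?_⟩
    have h1 := hc ((pmap f)^[r * (m * n * j)] x) (hV x hIx _)
    have h2 : (pmap f)^[r * (m * n)] ((pmap f)^[r * (m * n * j)] x) =
        (pmap g)^[r * n * (j + 1)] x := by
      rw [← Function.iterate_add_apply, hit]
      congr 1
      ring
    have h3 : (pmap f)^[r * (m * n * j)] x = (pmap g)^[r * n * j] x := by
      rw [hit]
      congr 1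
      ring
    rw [h2, h3] at h1
    exact h1

theorem NoInv.symm' {f f' : Tup Qb} (hf : Inv f f') (h : NoInv f) : NoInv f' := by
  rintro ⟨p, q, hq, hpq, heq⟩
  apply h
  refine ⟨p, q, hq, hpq, ?_⟩
  have h1 := congrArg (aeval f : Po Qb →ₐ[Qb] Po Qb) heq
  rw [map_mul, map_mul, hf.aeval_right, hf.aeval_right] at h1
  rw [mul_comm (aeval f p) q, mul_comm (aeval f q) p]
  exact h1.symm

/-- the main theorem from the targets -/
theorem main (hKEY : T_KEY) (hPFX : T_PFX) (hLIN : T_LIN) (hPER : T_PER) (hORB : T_ORB)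
    (hREV : T_REV) (hCUR : T_CUR) (hFRO : T_FRO) (hGRO : T_GRO) (f f' : Tup Qb) (hf : Inv f f')
    (hinv : NoInv f) (c : ℝ) (hc : 1 < c) (hgrow : ∀ N, ∃ n ≥ N, c ^ n ≤ (deg (it f n) : ℝ))
    (b : Po Qb) (hb : b ≠ 0) :
    ∃ x : Fin 3 → Qb,
      (∀ n, eval ((pmap f)^[n] x) b ≠ 0 ∧ eval ((pmap f')^[n] x) b ≠ 0) ∧ DenseOrbit f x := by
  obtain ⟨m, hm, h | h⟩ := hGRO (fun n => deg (it f n)) (fun n => deg (it f' n)) c
    (fun n => (hf.it n).one_le_deg) (fun n => (hf.symm.it n).one_le_deg)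
    (fun m n => deg_it_add_le f m n) (fun m n => deg_it_add_le f' m n) hc hgrow
  · exact core hKEY hPFX hLIN hPER hORB hCUR hFRO f f' hf hinv m hm h b hb
  · obtain ⟨x, hx, hdense⟩ := core hKEY hPFX hLIN hPER hORB hCUR hFRO f' f hf.symm
      (NoInv.symm' hf hinv) m hm h b hb
    exact ⟨x, fun n => ⟨(hx n).2, (hx n).1⟩, hREV Qb f f' x hf hdense⟩

end Pool.Agent.H8.ZA
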