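import Pool.Agent.H8.ZA.Targets2

/-!
# Zariski dense orbits of automorphisms of affine 3-space over algebraically closed fields
-/

open MvPolynomial
open Pool.Agent.H12.ZD (pmap v NoInv DenseOrbit)

namespace Pool.Agent.H8.ZA.K

/-- exponential growth excludes slow growth along a subsequence -/
theorem no_slow (h : ℕ → ℝ) {κ : ℝ} (hκ : 2 ≤ κ) (h0 : 0 < h 0) (hh : ∀ n, κ * h n ≤ h (n + 1))
    {r M : ℕ} (hr : 1 ≤ r) (hslow : ∀ n, ∃ c : ℝ, ∀ j, h (r * n * (j + 1)) ≤ M * h (r * n * j) + c) :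
    False := by
  have hpos : ∀ n, 0 < h n := by
    intro n
    induction n with
    | zero => exact h0
    | succ n ih => exact lt_of_lt_of_le (mul_pos (by linarith) ih) (hh n)
  have hpow : ∀ n m, (2 : ℝ) ^ m * h n ≤ h (n + m) := by
    intro n m
    induction m with
    | zero => simp
    | succ m ih =>
      calc (2 : ℝ) ^ (m + 1) * h n = 2 * (2 ^ m * h n) := by ring
        _ ≤ 2 * h (n + m) := by linarith
        _ ≤ κ * h (n + m) := mul_le_mul_of_nonneg_right hκ (hpos _).le
        _ ≤ h (n + m + 1) := hh _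
        _ = h (n + (m + 1)) := by rw [Nat.add_assoc]
  obtain ⟨c, hc⟩ := hslow (M + 1)
  have hM : (M : ℝ) + 1 ≤ 2 ^ (r * (M + 1)) := by
    have h1 : M + 1 ≤ 2 ^ (r * (M + 1)) := by
      calc M + 1 ≤ 2 ^ (M + 1) := Nat.lt_two_pow_self.le
        _ ≤ 2 ^ (r * (M + 1)) := Nat.pow_le_pow_right (by norm_num) (Nat.le_mul_of_pos_left _ hr)
    exact_mod_cast h1
  have hle : ∀ j, h (r * (M + 1) * j) ≤ c := by
    intro j
    have h1 := hc j
    have h2 := hpow (r * (M + 1) * j) (r * (M + 1))
    have h3 : r * (M + 1) * j + r * (M + 1) = r * (M + 1) * (j + 1) := by ring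
    rw [h3] at h2
    have h4 := mul_le_mul_of_nonneg_right hM (hpos (r * (M + 1) * j)).le
    nlinarith
  have htend : ∀ j : ℕ, (j : ℝ) * h 0 ≤ h (r * (M + 1) * j) := by
    intro j
    have h2 := hpow 0 (r * (M + 1) * j)
    rw [Nat.zero_add] at h2
    refine le_trans (mul_le_mul_of_nonneg_right ?_ h0.le) h2
    have h1 : j ≤ 2 ^ (r * (M + 1) * j) := by
      calc j ≤ 2 ^ j := Nat.lt_two_pow_self.le
        _ ≤ 2 ^ (r * (M + 1) * j) :=
          Nat.pow_le_pow_right (by norm_num) (Nat.le_mul_of_pos_left _ (by positivity))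
    exact_mod_cast h1
  obtain ⟨j, hj⟩ := exists_nat_gt (c / h 0)
  have h1 := htend j
  have h2 := hle j
  rw [div_lt_iff₀ h0] at hj
  linarith

/-- a number field containing the values of a polynomial at the points of a line and of their
orbits -/
theorem exists_field (f : Tup Qb) (b : Po Qb) (a : Fin 3 → Qb) :
    ∃ K : IntermediateField ℚ Qb, FiniteDimensional ℚ K ∧
      (∀ i, a i ∈ K) ∧ (∀ x : Fin 3 → Qb, (∀ i, x i ∈ K) → eval x b ∈ K) ∧
      ∀ x : Fin 3 → Qb, (∀ i, x i ∈ K) → ∀ n i, (pmap f)^[n] x i ∈ K := by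
  classical
  set S : Finset Qb := (Finset.univ.biUnion fun i => (f i).coeffs) ∪ b.coeffs ∪
    Finset.univ.image a with hS
  set K := IntermediateField.adjoin ℚ (S : Set Qb) with hK
  have hfin : FiniteDimensional ℚ K :=
    IntermediateField.finiteDimensional_adjoin fun x _ =>
      (Algebra.IsAlgebraic.isAlgebraic (R := ℚ) x).isIntegral
  have hsub : (S : Set Qb) ⊆ K := IntermediateField.subset_adjoin ℚ _
  have heval : ∀ (q : Po Qb) (x : Fin 3 → Qb), (∀ c ∈ q.coeffs, c ∈ K) → (∀ i, x i ∈ K) →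
      eval x q ∈ K := by
    intro q x hq hx
    rw [eval_eq']
    apply sum_mem
    intro m hm
    apply mul_mem
    · apply hq
      rw [mem_coeffs_iff]
      exact ⟨m, hm, rfl⟩
    · exact prod_mem fun j _ => pow_mem (hx j) _
  refine ⟨K, hfin, ?_, ?_, ?_⟩
  · intro i
    apply hsub
    rw [hS, Finset.coe_union]
    right
    simp
  · intro x hx
    apply heval b x _ hx
    intro c hc
    apply hsub
    rw [hS, Finset.coe_union, Finset.coe_union]
    left
    right
    exact hc
  · intro x hx n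
    induction n with
    | zero => exact hx
    | succ n ih =>
      intro i
      rw [Function.iterate_succ_apply']
      apply heval (f i) _ _ ih
      intro c hc
      apply hsub
      rw [hS, Finset.coe_union, Finset.coe_union]
      left
      left
      rw [Finset.mem_coe, Finset.mem_biUnion]
      exact ⟨i, Finset.mem_univ i, hc⟩

/-- consequences of the growth condition -/
theorem Good.real {d e D : ℕ} (hd : 1 ≤ d) (_he : 1 ≤ e) (hD : 1 ≤ D) (hD2 : D ≤ d * d)
    (h : Good d e D) :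
    (2 : ℝ) ≤ 130 * d * (max d e : ℕ) / D ∧
    130 * d * (max d e : ℕ) / D + 1 ≤ (D : ℝ) / (128 * d) ∧
    130 * d * (max d e : ℕ) / D + 1 ≤ (d : ℝ) := by
  have hd' : (1 : ℝ) ≤ d := by exact_mod_cast hd
  have hD' : (1 : ℝ) ≤ D := by exact_mod_cast hD
  have hD2' : (D : ℝ) ≤ d * d := by exact_mod_cast hD2
  have hΛ : (d : ℝ) ≤ ((max d e : ℕ) : ℝ) := by exact_mod_cast le_max_left d e
  have hDpos : (0 : ℝ) < D := by linarith
  have hdpos : (0 : ℝ) < d := by linarith
  have hG : (128 : ℝ) * d * (130 * d * ((max d e : ℕ) : ℝ) + D) ≤ (D : ℝ) ^ 2 := by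
    exact_mod_cast h
  have h2 : 130 * (d : ℝ) * ((max d e : ℕ) : ℝ) / D + 1 ≤ (D : ℝ) / (128 * d) := by
    rw [div_add_one hDpos.ne', div_le_div_iff₀ hDpos (by positivity)]
    nlinarith
  refine ⟨?_, h2, h2.trans ?_⟩
  · rw [le_div_iff₀ hDpos]
    nlinarith
  · rw [div_le_iff₀ (by positivity)]
    nlinarith

/-- one step of the recursion -/
theorem step_real {d D Λ κ c a b b' : ℝ} (hd : 1 ≤ d) (hD : 1 ≤ D) (hκ : κ = 130 * d * Λ / D)
    (hκD : κ + 1 ≤ D / (128 * d)) (h1 : D * b ≤ 64 * d * b' + 65 * d * Λ * a + c)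
    (h2 : κ * a ≤ b) (h3 : c ≤ b) (h4 : 0 ≤ b) : κ * b ≤ b' := by
  have hDpos : 0 < D := by linarith
  have hdpos : 0 < d := by linarith
  have e1 : 65 * d * Λ * a = D / 2 * (κ * a) := by
    rw [hκ]
    field_simp
    ring
  have e2 : D / 2 * (κ * a) ≤ D / 2 * b := mul_le_mul_of_nonneg_left h2 (by positivity)
  have e3 : (κ + 1) * b ≤ D / (128 * d) * b := mul_le_mul_of_nonneg_right hκD h4
  have e4 : 64 * d * (D / (128 * d) * b) = D / 2 * b := by
    field_simp
    ring
  have e5 : 64 * d * ((κ + 1) * b) ≤ D / 2 * b := by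
    rw [← e4]
    exact mul_le_mul_of_nonneg_left e3 (by positivity)
  have e6 : b ≤ 64 * d * b := by
    have : 1 * b ≤ 64 * d * b := mul_le_mul_of_nonneg_right (by linarith) h4
    linarith
  have e7 : 64 * d * (κ * b) ≤ 64 * d * b' := by
    have : 64 * d * ((κ + 1) * b) = 64 * d * (κ * b) + 64 * d * b := by ring
    linarith
  exact le_of_mul_le_mul_left e7 (by positivity)

/-- the first step -/
theorem first_real {d κ c a b : ℝ} (hκd : κ + 1 ≤ d) (h1 : d * a ≤ b + c) (h2 : c ≤ a)
    (h3 : 0 ≤ a) : κ * a ≤ b := by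
  have : (κ + 1) * a ≤ d * a := mul_le_mul_of_nonneg_right hκd h3
  linarith

/-- points with exponentially growing heights whose orbit avoids a surface -/
theorem coreGrow (hKEY : T_KEY) (hPFX : T_PFX) (hLIN : T_LIN) (hFRO : T_FRO) (f f' : Tup Qb)
    (hf : Inv f f') (m : ℕ) (hgood : Good (deg (it f m)) (deg (it f' m)) (deg (it f (m + m))))
    (b : Po Qb) (hb : b ≠ 0) :
    ∃ (x : Fin 3 → Qb) (K : IntermediateField ℚ Qb) (F : HFam K),
      (∀ n, eval ((pmap f)^[n] x) b ≠ 0 ∧ eval ((pmap f')^[n] x) b ≠ 0) ∧ 0 < F.ht x ∧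
      ∀ n, 2 * F.ht ((pmap f)^[m * n] x) ≤ F.ht ((pmap f)^[m * (n + 1)] x) := by
  set g := it f m with hg
  set g' := it f' m with hg'
  have hgg : Inv g g' := hf.it m
  have hcomp : comp g g = it f (m + m) := (it_add f m m).symm
  set d := deg g with hd
  set e := deg g' with he
  set D := deg (comp g g) with hD
  rw [← hcomp] at hgood
  have hd1 : 1 ≤ d := hgg.one_le_deg
  have he1 : 1 ≤ e := hgg.symm.one_le_deg
  have hD1 : 1 ≤ D := by
    rw [hD, hcomp]
    exact (hf.it (m + m)).one_le_deg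
  have hD2 : D ≤ d * d := deg_comp_le g g
  obtain ⟨hκ2, hκD, hκd⟩ := Good.real hd1 he1 hD1 hD2 hgood
  set Λ := max d e with hΛ
  set κ : ℝ := 130 * d * (Λ : ℕ) / D with hκ
  obtain ⟨b₁, hb₁, hkey⟩ := hKEY g g' d e D Λ hgg rfl rfl rfl (le_max_left _ _) (le_max_right _ _)
  obtain ⟨p, a, hpa⟩ := hFRO f f' (b * b₁) hf (mul_ne_zero hb hb₁)
  obtain ⟨u, hu⟩ := hLIN g d rfl hd1
  obtain ⟨K, hK, haK, hbK, horbK⟩ := exists_field f b₁ a
  obtain ⟨F⟩ := hPFX K hK
  obtain ⟨c₁, hc₁⟩ := hkey K F
  obtain ⟨c₂, hc₂⟩ := hu K F a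
  -- choose the point
  obtain ⟨t₀, ht₀⟩ := exists_nat_gt (Real.exp (max (|c₂|) (|c₁|) + 1 + c₂))
  set t : ℕ := (p : ℕ) * (t₀ + 1) with ht
  have hp1 : 1 ≤ (p : ℕ) := p.2.one_lt.le
  have ht1 : 1 ≤ t := Nat.one_le_iff_ne_zero.mpr (by
    rw [ht]
    exact Nat.mul_ne_zero (by omega) (by omega))
  have htt : t₀ ≤ t := by
    rw [ht]
    nlinarith
  set x : Fin 3 → Qb := fun i => a i + t * u i with hx
  have hxa : ∀ i, v p (x i - a i) < 1 := by
    intro i
    have h1 : x i - a i = (t : Qb) * (u i : Qb) := by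
      simp only [hx]
      ring
    rw [h1, Pool.Agent.H12.ZD.v_mul]
    have h2 : v p (t : Qb) < 1 := Pool.Agent.H12.ZD.v_natCast_lt p (Dvd.intro _ rfl)
    have h3 : v p (u i : Qb) ≤ 1 := Pool.Agent.H12.ZD.v_intCast_le p (u i)
    calc v p (t : Qb) * v p (u i : Qb) ≤ v p (t : Qb) * 1 :=
          mul_le_mul_of_nonneg_left h3 (Pool.Agent.H12.ZD.v_nonneg p _)
      _ < 1 := by rw [mul_one]; exact h2
  have hne := hpa x hxa
  have hval : ∀ n, eval ((pmap f)^[n] x) b ≠ 0 ∧ eval ((pmap f)^[n] x) b₁ ≠ 0 := by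
    intro n
    have h1 := (hne n).1
    rw [map_mul] at h1
    exact ⟨left_ne_zero_of_mul h1, right_ne_zero_of_mul h1⟩
  have hval' : ∀ n, eval ((pmap f')^[n] x) b ≠ 0 := by
    intro n
    have h1 := (hne n).2
    rw [map_mul] at h1
    exact left_ne_zero_of_mul h1
  have hxK : ∀ i, x i ∈ K := by
    intro i
    simp only [hx]
    apply add_mem (haK i)
    exact mul_mem (natCast_mem K t) (intCast_mem K (u i))
  -- the heights
  set h : ℕ → ℝ := fun n => F.ht ((pmap g)^[n] x) with hh
  have hit : ∀ n, (pmap g)^[n] x = (pmap f)^[m * n] x := fun n => pmap_it_iterate f m n x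
  have h0 : max (|c₂|) (|c₁|) + 1 ≤ h 0 := by
    have h1 := (hc₂ t ht1).2
    have h2 : max (|c₂|) (|c₁|) + 1 + c₂ ≤ Real.log t := by
      rw [Real.le_log_iff_exp_le (by exact_mod_cast ht1)]
      exact ht₀.le.trans (by exact_mod_cast htt)
    have h3 : h 0 = F.ht x := rfl
    rw [h3]
    linarith
  have hstep : ∀ n, κ * h n ≤ h (n + 1) ∧ h 0 ≤ h n := by
    intro n
    induction n with
    | zero =>
      refine ⟨?_, le_rfl⟩
      have h1 := (hc₂ t ht1).1
      have h2 : h (0 + 1) = F.ht (pmap g x) := rfl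
      have h3 : h 0 = F.ht x := rfl
      rw [h2, h3]
      have h4 : c₂ ≤ F.ht x := by
        rw [← h3]
        exact (le_abs_self _).trans (le_trans (le_max_left _ _) (by linarith))
      exact first_real hκd h1 h4 (ht_nonneg F x)
    | succ n ih =>
      have hn1 : h 0 ≤ h (n + 1) := by
        have h1 : 0 ≤ h n := ht_nonneg F _
        have h2 : 1 * h n ≤ κ * h n := mul_le_mul_of_nonneg_right (by linarith) h1
        linarith [ih.1, ih.2]
      refine ⟨?_, hn1⟩
      have hy : pmap g ((pmap g)^[n + 1] x) = (pmap g)^[n + 1 + 1] x :=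
        (Function.iterate_succ_apply' _ _ _).symm
      have hz : pmap g' ((pmap g)^[n + 1] x) = (pmap g)^[n] x := by
        rw [Function.iterate_succ_apply']
        exact hgg.pmap_right _
      have h1 := hc₁ ((pmap g)^[n + 1] x) (hbK _ fun i => by
        rw [hit]
        exact horbK x hxK _ i) (by
        rw [hit]
        exact (hval _).2)
      rw [hy, hz] at h1
      change (D : ℝ) * h (n + 1) ≤ 64 * d * h (n + 1 + 1) + 65 * d * Λ * h n + c₁ at h1
      have hd' : (1 : ℝ) ≤ d := by exact_mod_cast hd1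
      have hD' : (1 : ℝ) ≤ D := by exact_mod_cast hD1
      have h7 : c₁ ≤ h (n + 1) := by
        calc c₁ ≤ |c₁| := le_abs_self _
          _ ≤ max |c₂| |c₁| := le_max_right _ _
          _ ≤ h 0 := by linarith
          _ ≤ h (n + 1) := hn1
      exact step_real hd' hD' hκ hκD h1 ih.1 h7 (ht_nonneg F _)
  have hpos0 : 0 < h 0 := by
    have : 0 ≤ max |c₂| |c₁| := le_max_of_le_left (abs_nonneg _)
    linarith
  refine ⟨x, K, F, fun n => ⟨(hval n).1, hval' n⟩, hpos0, fun n => ?_⟩
  rw [← hit, ← hit]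
  have h1 : 0 ≤ h n := ht_nonneg F _
  have h2 : 2 * h n ≤ κ * h n := mul_le_mul_of_nonneg_right hκ2 h1
  exact h2.trans (hstep n).1

/-! ## Change of rings -/

section map

variable {R S : Type} [CommRing R] [CommRing S] (ψ : R →+* S)

/-- base change of a tuple -/
noncomputable def mp (f : Tup R) : Tup S := fun i => map ψ (f i)

theorem map_aeval' (g : Tup R) (q : Po R) : map ψ (aeval g q) = aeval (mp ψ g) (map ψ q) := by
  induction q using MvPolynomial.induction_on with
  | C a => simp [algebraMap_eq]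
  | add p q hp hq => rw [map_add, map_add, hp, hq, map_add, map_add]
  | mul_X p i hp =>
    rw [map_mul, map_mul, hp, map_mul, map_mul, aeval_X, map_X, aeval_X]
    rfl

theorem mp_comp (f g : Tup R) : mp ψ (comp f g) = comp (mp ψ f) (mp ψ g) := by
  funext i
  exact map_aeval' ψ g (f i)

theorem mp_X : mp ψ (fun i => (X i : Po R)) = fun i => X i := by
  funext i
  exact map_X ψ i

theorem mp_it (f : Tup R) (n : ℕ) : mp ψ (it f n) = it (mp ψ f) n := by
  induction n with
  | zero => exact mp_X ψ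
  | succ n ih => rw [it_succ, it_succ, mp_comp, ih]

theorem pmap_mp (f : Tup R) (x : Fin 3 → R) :
    pmap (mp ψ f) (fun i => ψ (x i)) = fun i => ψ (pmap f x i) := by
  funext i
  exact eval_map_map ψ (f i) x
where
  eval_map_map (ψ : R →+* S) (q : Po R) (x : Fin 3 → R) :
      eval (fun i => ψ (x i)) (map ψ q) = ψ (eval x q) := by
    rw [eval_map, eval₂_eq', eval_eq', map_sum]
    exact Finset.sum_congr rfl fun m _ => by rw [map_mul, map_prod]; simp only [map_pow]

theorem eval_map_map {σ : Type} [Fintype σ] (q : MvPolynomial σ R) (x : σ → R) :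
    eval (fun i => ψ (x i)) (map ψ q) = ψ (eval x q) := by
  rw [eval_map, eval₂_eq', eval_eq', map_sum]
  exact Finset.sum_congr rfl fun m _ => by rw [map_mul, map_prod]; simp only [map_pow]

theorem pmap_mp_iterate (f : Tup R) (x : Fin 3 → R) (n : ℕ) :
    (pmap (mp ψ f))^[n] (fun i => ψ (x i)) = fun i => ψ ((pmap f)^[n] x i) := by
  induction n with
  | zero => rfl
  | succ n ih =>
    rw [Function.iterate_succ_apply', ih, pmap_mp, Function.iterate_succ_apply']

theorem mp_inv {f f' : Tup R} (h : Inv f f') : Inv (mp ψ f) (mp ψ f') := by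
  constructor
  · rw [← mp_comp, h.left, mp_X]
  · rw [← mp_comp, h.right, mp_X]

theorem inv_of_mp (hψ : Function.Injective ψ) {f f' : Tup R} (h : Inv (mp ψ f) (mp ψ f')) :
    Inv f f' := by
  have hinj : ∀ a b : Tup R, mp ψ a = mp ψ b → a = b := by
    intro a b hab
    funext i
    exact map_injective ψ hψ (congrFun hab i)
  constructor
  · apply hinj
    rw [mp_comp, h.left, mp_X]
  · apply hinj
    rw [mp_comp, h.right, mp_X]

theorem deg_mp_le (f : Tup R) : deg (mp ψ f) ≤ deg f := by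
  apply deg_le
  intro i
  exact (Finset.sup_mono (support_map_subset ψ (f i))).trans (totalDegree_le_deg f i)

theorem deg_mp_injective (hψ : Function.Injective ψ) (f : Tup R) : deg (mp ψ f) = deg f := by
  apply le_antisymm (deg_mp_le ψ f)
  apply deg_le
  intro i
  refine le_trans ?_ (totalDegree_le_deg (mp ψ f) i)
  apply Finset.sup_mono
  intro m hm
  rw [mem_support_iff] at hm ⊢
  change coeff m (map ψ (f i)) ≠ 0
  rw [coeff_map]
  intro h0
  exact hm (hψ (by rw [h0, map_zero]))

/-- a tuple with coefficients in a subring -/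
theorem exists_mp_eq {k : Type} [CommRing k] (A : Subring k) (f : Tup k)
    (h : ∀ i m, coeff m (f i) ∈ A) : ∃ fA : Tup A, mp A.subtype fA = f := by
  have h1 : ∀ i, ∃ q : Po A, map A.subtype q = f i := by
    intro i
    refine ⟨∑ m ∈ (f i).support, monomial m ⟨coeff m (f i), h i m⟩, ?_⟩
    rw [map_sum]
    simp only [map_monomial]
    exact (f i).support_sum_monomial_coeff
  choose fA hfA using h1
  exact ⟨fA, funext hfA⟩

end map

/-- a top coefficient of a tuple -/
theorem exists_top {k : Type} [CommRing k] (f : Tup k) (hf : 1 ≤ deg f) :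
    ∃ (i : Fin 3) (m : Fin 3 →₀ ℕ), coeff m (f i) ≠ 0 ∧ (m.sum fun _ e => e) = deg f := by
  obtain ⟨i, hi⟩ := exists_deg_eq f
  have hne : (f i).support.Nonempty := by
    rw [support_nonempty]
    intro h0
    rw [h0, totalDegree_zero] at hi
    omega
  obtain ⟨m, hm, hme⟩ := Finset.exists_mem_eq_sup (f i).support hne fun m => m.sum fun _ e => e
  refine ⟨i, m, mem_support_iff.1 hm, ?_⟩
  rw [← hi]
  exact hme.symm

theorem deg_mp_eq {A B : Type} [CommRing A] [CommRing B] (φ : A →+* B) (fA : Tup A)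
    (i : Fin 3) (m : Fin 3 →₀ ℕ) (hm : (m.sum fun _ e => e) = deg fA)
    (h : φ (coeff m (fA i)) ≠ 0) : deg (mp φ fA) = deg fA := by
  apply le_antisymm (deg_mp_le φ fA)
  rw [← hm]
  refine le_trans ?_ (totalDegree_le_deg (mp φ fA) i)
  apply le_totalDegree
  rw [mem_support_iff]
  change coeff m (map φ (fA i)) ≠ 0
  rwa [coeff_map]

/-- the core over an algebraically closed field of characteristic zero -/
theorem core (hKEY : T_KEY) (hPFX : T_PFX) (hLIN : T_LIN) (hPER : T_PER) (hORX : T_ORX)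
    (hCUR : T_CUR) (hFRO : T_FRO) (hSPC : T_SPC) (hDEP : T_DEP) (hIND : T_IND)
    (k : Type) [Field k] [IsAlgClosed k] [CharZero k] (f f' : Tup k) (hf : Inv f f')
    (hinv : NoInv f) (m : ℕ)
    (hgood : Good (deg (it f m)) (deg (it f' m)) (deg (it f (m + m))))
    (b : Po k) (hb : b ≠ 0) :
    ∃ x : Fin 3 → k,
      (∀ n, eval ((pmap f)^[n] x) b ≠ 0 ∧ eval ((pmap f')^[n] x) b ≠ 0) ∧ DenseOrbit f x := by
  classical
  obtain ⟨bS, hbS, hper⟩ := hPER k f f' hf hinv
  set b₂ : Po k := b * bS with hb₂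
  have hb₂0 : b₂ ≠ 0 := mul_ne_zero hb hbS
  obtain ⟨i₁, m₁, hm₁, hm₁'⟩ := exists_top (it f m) (hf.it m).one_le_deg
  obtain ⟨i₂, m₂, hm₂, hm₂'⟩ := exists_top (it f' m) (hf.symm.it m).one_le_deg
  obtain ⟨i₃, m₃, hm₃, hm₃'⟩ := exists_top (it f (m + m)) (hf.it (m + m)).one_le_deg
  obtain ⟨m₄, hm₄⟩ := ne_zero_iff.1 hb₂0
  obtain ⟨ι, A, φ, hSA, hE, hEA, hι, hF⟩ := hSPC k
    ((Finset.univ.biUnion fun i => (f i).coeffs) ∪ (Finset.univ.biUnion fun i => (f' i).coeffs) ∪
      b₂.coeffs)
    {coeff m₁ (it f m i₁), coeff m₂ (it f' m i₂), coeff m₃ (it f (m + m) i₃), coeff m₄ b₂} (by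
      intro e he
      simp only [Finset.mem_insert, Finset.mem_singleton] at he
      rcases he with rfl | rfl | rfl | rfl
      · exact hm₁
      · exact hm₂
      · exact hm₃
      · exact hm₄)
  have hcoef : ∀ (q : Po k), (∀ c ∈ q.coeffs, c ∈ A) → ∀ μ, coeff μ q ∈ A := by
    intro q hq μ
    by_cases h0 : coeff μ q = 0
    · rw [h0]
      exact A.zero_mem
    · exact hq _ (by
        rw [mem_coeffs_iff]
        exact ⟨μ, mem_support_iff.2 h0, rfl⟩)
  obtain ⟨fA, hfA⟩ := exists_mp_eq A f fun i => hcoef _ fun c hc => hSA c (by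
    rw [Finset.mem_union, Finset.mem_union, Finset.mem_biUnion]
    exact Or.inl (Or.inl ⟨i, Finset.mem_univ i, hc⟩))
  obtain ⟨fA', hfA'⟩ := exists_mp_eq A f' fun i => hcoef _ fun c hc => hSA c (by
    rw [Finset.mem_union, Finset.mem_union, Finset.mem_biUnion, Finset.mem_biUnion]
    exact Or.inl (Or.inr ⟨i, Finset.mem_univ i, hc⟩))
  obtain ⟨bA, hbA⟩ := exists_mp_eq A (fun _ => b₂) fun _ => hcoef _ fun c hc => hSA c (by
    rw [Finset.mem_union]
    exact Or.inr hc)
  have hbA0 : map A.subtype (bA 0) = b₂ := congrFun hbA 0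
  have hsub : Function.Injective A.subtype := A.subtype_injective
  have hinvA : Inv fA fA' := by
    apply inv_of_mp A.subtype hsub
    rw [hfA, hfA']
    exact hf
  -- the specialization
  set fs : Tup Qb := mp φ fA with hfs
  set fs' : Tup Qb := mp φ fA' with hfs'
  have hinvs : Inv fs fs' := mp_inv φ hinvA
  have hdegA : ∀ (n : ℕ), deg (it f n) = deg (it fA n) := by
    intro n
    rw [← hfA, ← mp_it, deg_mp_injective _ hsub]
  have hdegA' : ∀ (n : ℕ), deg (it f' n) = deg (it fA' n) := by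
    intro n
    rw [← hfA', ← mp_it, deg_mp_injective _ hsub]
  have hunit : ∀ (q : Po A) (μ : Fin 3 →₀ ℕ) (e : k), coeff μ (map A.subtype q) = e →
      e ∈ ({coeff m₁ (it f m i₁), coeff m₂ (it f' m i₂), coeff m₃ (it f (m + m) i₃),
        coeff m₄ b₂} : Finset k) → φ (coeff μ q) ≠ 0 := by
    intro q μ e he hmem
    rw [coeff_map] at he
    have h1 : ((coeff μ q : A) : k) ∈ A := (coeff μ q).2
    have h2 := hE ((coeff μ q : A) : k) h1 (by
      have : ((coeff μ q : A) : k) = e := he
      rw [this]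
      exact hmem)
    exact h2
  have hitA : ∀ n i, map A.subtype (it fA n i) = it f n i := by
    intro n i
    have := congrFun (mp_it A.subtype fA n) i
    rw [hfA] at this
    exact this
  have hitA' : ∀ n i, map A.subtype (it fA' n i) = it f' n i := by
    intro n i
    have := congrFun (mp_it A.subtype fA' n) i
    rw [hfA'] at this
    exact this
  have hdeg1 : deg (it fs m) = deg (it f m) := by
    rw [hfs, ← mp_it, hdegA]
    apply deg_mp_eq φ _ i₁ m₁ (by rw [hm₁', hdegA])
    exact hunit _ _ _ (by rw [hitA]) (by simp)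
  have hdeg2 : deg (it fs' m) = deg (it f' m) := by
    rw [hfs', ← mp_it, hdegA']
    apply deg_mp_eq φ _ i₂ m₂ (by rw [hm₂', hdegA'])
    exact hunit _ _ _ (by rw [hitA']) (by simp)
  have hdeg3 : deg (it fs (m + m)) = deg (it f (m + m)) := by
    rw [hfs, ← mp_it, hdegA]
    apply deg_mp_eq φ _ i₃ m₃ (by rw [hm₃', hdegA])
    exact hunit _ _ _ (by rw [hitA]) (by simp)
  set bs : Po Qb := map φ (bA 0) with hbs
  have hbs0 : bs ≠ 0 := by
    intro h0
    have h1 : coeff m₄ bs = 0 := by rw [h0, coeff_zero]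
    rw [hbs, coeff_map] at h1
    exact hunit (bA 0) m₄ _ (by rw [hbA0]) (by simp) h1
  rw [← hdeg1, ← hdeg2, ← hdeg3] at hgood
  obtain ⟨xs, K, F, hxs, hpos, hgrow⟩ := coreGrow hKEY hPFX hLIN hFRO fs fs' hinvs m hgood bs hbs0
  -- the point over `k`
  have hι' : ∀ z, ι z ∈ A := fun z => (hι z).1
  set ιA : Qb →+* A := ι.codRestrict A hι' with hιA
  have hφι : ∀ z, φ (ιA z) = z := fun z => (hι z).2
  set xA : Fin 3 → A := fun i => ιA (xs i) with hxA
  have hxsA : (fun i => φ (xA i)) = xs := by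
    funext i
    exact hφι (xs i)
  set x : Fin 3 → k := fun i => A.subtype (xA i) with hx
  have horb : ∀ n, (pmap f)^[n] x = fun i => A.subtype ((pmap fA)^[n] xA i) := by
    intro n
    rw [← pmap_mp_iterate, hfA]
  have horb' : ∀ n, (pmap f')^[n] x = fun i => A.subtype ((pmap fA')^[n] xA i) := by
    intro n
    rw [← pmap_mp_iterate, hfA']
  have horbs : ∀ n, (pmap fs)^[n] xs = fun i => φ ((pmap fA)^[n] xA i) := by
    intro n
    rw [← pmap_mp_iterate, hxsA]
  have horbs' : ∀ n, (pmap fs')^[n] xs = fun i => φ ((pmap fA')^[n] xA i) := by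
    intro n
    rw [← pmap_mp_iterate, hxsA]
  have hvalb : ∀ n, eval ((pmap f)^[n] x) b₂ ≠ 0 ∧ eval ((pmap f')^[n] x) b₂ ≠ 0 := by
    intro n
    constructor
    · intro h0
      apply (hxs n).1
      rw [horb, ← hbA0, eval_map_map A.subtype (bA 0)] at h0
      have h1 : eval ((pmap fA)^[n] xA) (bA 0) = 0 := hsub (by rw [h0, map_zero])
      rw [horbs, hbs, eval_map_map φ (bA 0), h1, map_zero]
    · intro h0
      apply (hxs n).2
      rw [horb', ← hbA0, eval_map_map A.subtype (bA 0)] at h0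
      have h1 : eval ((pmap fA')^[n] xA) (bA 0) = 0 := hsub (by rw [h0, map_zero])
      rw [horbs', hbs, eval_map_map φ (bA 0), h1, map_zero]
  refine ⟨x, fun n => ⟨?_, ?_⟩, ?_⟩
  · have h1 := (hvalb n).1
    rw [hb₂, map_mul] at h1
    exact left_ne_zero_of_mul h1
  · have h1 := (hvalb n).2
    rw [hb₂, map_mul] at h1
    exact left_ne_zero_of_mul h1
  intro q hq
  by_contra hq0
  obtain ⟨I, r, hI, hI0, hr, hIr, hIx, -⟩ := hORX k f f' x q hf hq0 hq
  by_cases hprin : ∃ P : Po k, I = Ideal.span {P}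
  · obtain ⟨P, hP⟩ := hprin
    have hP0 : P ≠ 0 := by
      rintro rfl
      apply hI0
      rw [hP]
      simp
    have hPprime : Prime P := by
      rw [← Ideal.span_singleton_prime hP0, ← hP]
      exact hI
    have hPir : Irreducible P := hPprime.irreducible
    -- `P ∘ f ^ r` is a multiple of `P`
    have h1 : aeval (it f r) P ∈ I := by
      have h2 : P ∈ Ideal.comap (aeval (it f r) : Po k →ₐ[k] Po k) I := by
        rw [hIr, hP]
        exact Ideal.mem_span_singleton_self P
      exact h2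
    rw [hP, Ideal.mem_span_singleton] at h1
    obtain ⟨w, hw⟩ := h1
    -- and conversely
    have hfr := hf.it r
    have hPI : P ∈ I := by
      rw [hP]
      exact Ideal.mem_span_singleton_self P
    have h3' : aeval (it f' r) P ∈ Ideal.comap (aeval (it f r) : Po k →ₐ[k] Po k) I := by
      rw [Ideal.mem_comap, hfr.aeval_right]
      exact hPI
    have h3 : aeval (it f' r) P ∈ I := hIr ▸ h3'
    rw [hP, Ideal.mem_span_singleton] at h3
    obtain ⟨w', hw'⟩ := h3
    have h4 : P = P * (w * aeval (it f r) w') := by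
      have h5 := congrArg (aeval (it f r) : Po k →ₐ[k] Po k) hw'
      rw [hfr.aeval_right, map_mul, hw] at h5
      rw [← mul_assoc]
      exact h5
    have h6 : w * aeval (it f r) w' = 1 := by
      have : P * (w * aeval (it f r) w') = P * 1 := by rw [← h4, mul_one]
      exact mul_left_cancel₀ hP0 this
    have h7 : IsUnit w := IsUnit.of_mul_eq_one _ h6
    obtain ⟨c, hc⟩ : ∃ c : k, w = C c := by
      rw [MvPolynomial.isUnit_iff_eq_C_of_isReduced] at h7
      obtain ⟨c, -, hc⟩ := h7
      exact ⟨c, hc⟩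
    have h8 := hper P r c hPir hr (by rw [hw, hc, mul_comm])
    obtain ⟨w'', hw''⟩ := h8
    apply (hvalb 0).1
    rw [hb₂, map_mul, hw'', map_mul, Function.iterate_zero, id]
    rw [hIx P hPI, zero_mul, mul_zero]
  · have hnot : ∀ P : Po k, I ≠ Ideal.span {P} := fun P hP => hprin ⟨P, hP⟩
    -- the zero set is invariant
    have hV : ∀ n, ∀ q ∈ I, eval ((pmap f)^[r * n] x) q = 0 := by
      intro n
      induction n with
      | zero => exact hIx
      | succ n ih =>
        intro q hq
        have h1 : (pmap f)^[r * (n + 1)] x = pmap (it f r) ((pmap f)^[r * n] x) := by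
          rw [Nat.mul_succ, Nat.add_comm, Function.iterate_add_apply, pmap_it]
        rw [h1, ← eval_aeval]
        apply ih
        have h2 : q ∈ Ideal.comap (aeval (it f r) : Po k →ₐ[k] Po k) I := by rwa [hIr]
        exact h2
    -- dependence of the specialized orbit
    have hdep : ∀ u w : Po Qb, ∃ G : MvPolynomial (Fin 2) Qb, G ≠ 0 ∧
        ∀ n, eval ((pmap fs)^[r * n] xs) (aeval ![u, w] G) = 0 := by
      intro u w
      obtain ⟨G, hG0, hG⟩ := hDEP k I hI hI0 hnot (map ι u) (map ι w)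
      obtain ⟨G', hG'0, hG'⟩ := hF G hG0
      refine ⟨G', hG'0, fun n => ?_⟩
      have h1 := hV n _ hG
      set yA : Fin 3 → A := (pmap fA)^[r * n] xA with hyA
      have hev : ∀ q : Po Qb, eval ((pmap f)^[r * n] x) (map ι q) =
          ((eval yA (map ιA q) : A) : k) := by
        intro q
        have h2 : map ι q = map A.subtype (map ιA q) := by
          rw [map_map]
          rfl
        rw [h2, horb]
        exact eval_map_map A.subtype (map ιA q) yA
      have hevs : ∀ q : Po Qb, eval ((pmap fs)^[r * n] xs) q = φ (eval yA (map ιA q)) := by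
        intro q
        have h2 : q = map φ (map ιA q) := by
          rw [map_map]
          have h3 : φ.comp ιA = RingHom.id Qb := RingHom.ext hφι
          rw [h3, map_id]
        rw [horbs]
        conv_lhs => rw [h2]
        exact eval_map_map φ (map ιA q) yA
      have h2 : eval (fun i => ((![eval yA (map ιA u), eval yA (map ιA w)] i : A) : k)) G = 0 := by
        rw [← h1]
        have h3 : ∀ (p : MvPolynomial (Fin 2) k), eval ((pmap f)^[r * n] x)
            (aeval ![map ι u, map ι w] p) =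
            eval (fun i => ((![eval yA (map ιA u), eval yA (map ιA w)] i : A) : k)) p := by
          intro p
          have h4 : ((aeval ((pmap f)^[r * n] x) : Po k →ₐ[k] k).comp
              (aeval ![map ι u, map ι w] : MvPolynomial (Fin 2) k →ₐ[k] Po k)) =
              aeval (fun i => ((![eval yA (map ιA u), eval yA (map ιA w)] i : A) : k)) := by
            apply algHom_ext
            intro i
            rw [AlgHom.comp_apply, aeval_X, aeval_X]
            fin_cases i
            · exact hev u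
            · exact hev w
          exact DFunLike.congr_fun h4 p
        exact (h3 G).symm
      have h5 := hG' _ h2
      rw [← h5]
      have h4 : ((aeval ((pmap fs)^[r * n] xs) : Po Qb →ₐ[Qb] Qb).comp
          (aeval ![u, w] : MvPolynomial (Fin 2) Qb →ₐ[Qb] Po Qb)) =
          aeval (fun i => φ (![eval yA (map ιA u), eval yA (map ιA w)] i)) := by
        apply algHom_ext
        intro i
        rw [AlgHom.comp_apply, aeval_X, aeval_X]
        fin_cases i
        · exact hevs u
        · exact hevs w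
      exact DFunLike.congr_fun h4 G'
    -- a curve over the algebraic numbers
    obtain ⟨G₀, hG₀, hG₀v⟩ := hdep (X 0) (X 1)
    have hG₀' : aeval ![(X 0 : Po Qb), X 1] G₀ ≠ 0 := by
      have h1 : (aeval ![(X 0 : Po Qb), X 1] : MvPolynomial (Fin 2) Qb →ₐ[Qb] Po Qb) =
          rename ![0, 1] := by
        apply algHom_ext
        intro i
        rw [aeval_X, rename_X]
        fin_cases i <;> rfl
      rw [h1]
      intro h0
      apply hG₀
      have hinj : Function.Injective (![0, 1] : Fin 2 → Fin 3) := by decide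
      exact rename_injective _ hinj (by rw [h0, map_zero])
    have hfr := hinvs.it r
    obtain ⟨p, r', hp, hp0, hr', hpr, hpx, hpall⟩ := hORX Qb (it fs r) (it fs' r) xs
      (aeval ![(X 0 : Po Qb), X 1] G₀) hfr hG₀' (fun n => by
        rw [pmap_it_iterate]
        exact hG₀v n)
    have hpnot : ∀ P : Po Qb, p ≠ Ideal.span {P} := by
      intro P hP
      have hP0 : P ≠ 0 := by
        rintro rfl
        apply hp0
        rw [hP]
        simp
      obtain ⟨i, j, hij⟩ := hIND Qb P (hP ▸ hp) hP0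
      obtain ⟨G, hG, hGv⟩ := hdep (X i) (X j)
      apply hij G hG
      rw [← hP]
      apply hpall
      intro n
      rw [pmap_it_iterate]
      exact hGv n
    rw [it_mul] at hpr
    obtain ⟨M, hM⟩ := hCUR fs fs' p (r * r') hinvs hp hp0 hpnot hpr
    have hVs : ∀ n, ∀ q ∈ p, eval ((pmap fs)^[r * r' * n] xs) q = 0 := by
      intro n
      induction n with
      | zero => exact hpx
      | succ n ih =>
        intro q hq
        have h1 : (pmap fs)^[r * r' * (n + 1)] xs =
            pmap (it fs (r * r')) ((pmap fs)^[r * r' * n] xs) := by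
          rw [Nat.mul_succ, Nat.add_comm, Function.iterate_add_apply, pmap_it]
        rw [h1, ← eval_aeval]
        apply ih
        have h2 : q ∈ Ideal.comap (aeval (it fs (r * r')) : Po Qb →ₐ[Qb] Po Qb) p := by rwa [hpr]
        exact h2
    apply no_slow (fun n => F.ht ((pmap fs)^[m * n] xs)) (le_refl (2 : ℝ)) hpos hgrow
      (Nat.mul_pos hr hr' : 1 ≤ r * r') (M := M)
    intro n
    obtain ⟨c, hc⟩ := hM (m * n) K F
    refine ⟨c, fun j => ?_⟩
    have h1 := hc ((pmap fs)^[r * r' * (m * n * j)] xs) (hVs _)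
    have h2 : (pmap fs)^[r * r' * (m * n)] ((pmap fs)^[r * r' * (m * n * j)] xs) =
        (pmap fs)^[m * (r * r' * n * (j + 1))] xs := by
      rw [← Function.iterate_add_apply]
      congr 1
      ring
    have h3 : (pmap fs)^[r * r' * (m * n * j)] xs = (pmap fs)^[m * (r * r' * n * j)] xs := by
      congr 1
      ring
    rw [h2, h3] at h1
    exact h1

theorem NoInv.symm' {k : Type} [Field k] {f f' : Tup k} (hf : Inv f f') (h : NoInv f) :
    NoInv f' := by
  rintro ⟨p, q, hq, hpq, heq⟩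
  apply h
  refine ⟨p, q, hq, hpq, ?_⟩
  have h1 := congrArg (aeval f : Po k →ₐ[k] Po k) heq
  rw [map_mul, map_mul, hf.aeval_right, hf.aeval_right] at h1
  rw [mul_comm (aeval f p) q, mul_comm (aeval f q) p]
  exact h1.symm

/-- the main theorem from the targets -/
theorem main (hKEY : T_KEY) (hPFX : T_PFX) (hLIN : T_LIN) (hPER : T_PER) (hORX : T_ORX)
    (hREV : T_REV) (hCUR : T_CUR) (hFRO : T_FRO) (hGRO : T_GRO) (hSPC : T_SPC) (hDEP : T_DEP)
    (hIND : T_IND) (k : Type) [Field k] [IsAlgClosed k] [CharZero k] (f f' : Tup k)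
    (hf : Inv f f') (hinv : NoInv f) (c : ℝ) (hc : 1 < c)
    (hgrow : ∀ N, ∃ n ≥ N, c ^ n ≤ (deg (it f n) : ℝ)) (b : Po k) (hb : b ≠ 0) :
    ∃ x : Fin 3 → k,
      (∀ n, eval ((pmap f)^[n] x) b ≠ 0 ∧ eval ((pmap f')^[n] x) b ≠ 0) ∧ DenseOrbit f x := by
  obtain ⟨m, hm, h | h⟩ := hGRO (fun n => deg (it f n)) (fun n => deg (it f' n)) c
    (fun n => (hf.it n).one_le_deg) (fun n => (hf.symm.it n).one_le_deg)
    (fun m n => deg_it_add_le f m n) (fun m n => deg_it_add_le f' m n) hc hgrow
  · exact core hKEY hPFX hLIN hPER hORX hCUR hFRO hSPC hDEP hIND k f f' hf hinv m h b hb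
  · obtain ⟨x, hx, hdense⟩ := core hKEY hPFX hLIN hPER hORX hCUR hFRO hSPC hDEP hIND k f' f
      hf.symm (NoInv.symm' hf hinv) m h b hb
    exact ⟨x, fun n => ⟨(hx n).2, (hx n).1⟩, hREV k f f' x hf hdense⟩

end Pool.Agent.H8.ZA.K
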