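import Pool.Agent.H8.ZA.Basic

/-!
# Zariski dense orbits of automorphisms of affine 3-space: the targets
-/

open MvPolynomial
open Pool.Agent.H12.ZD (pmap v NoInv DenseOrbit)

namespace Pool.Agent.H8.ZA

/-! ## Plane geometry -/

/-- Bezout's inequality for two relatively prime polynomials in two variables -/
def T_BEZ : Prop := ∀ (L : Type) [Field L] (G H : MvPolynomial (Fin 2) L), G ≠ 0 → H ≠ 0 →
  IsRelPrime G H → Module.Finite L (MvPolynomial (Fin 2) L ⧸ Ideal.span {G, H}) ∧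
    Module.finrank L (MvPolynomial (Fin 2) L ⧸ Ideal.span {G, H}) ≤
      G.totalDegree * H.totalDegree

/-- lower bound for the number of zeros of a polynomial divisible by parallel lines -/
def T_LOZ : Prop := ∀ (L : Type) [Field L] (e : ℕ) (ζ S : MvPolynomial (Fin 2) L) (J : Finset L),
  ζ.totalDegree ≤ e → coeff (Finsupp.single 0 e) ζ ≠ 0 → (∏ c ∈ J, (X 1 - C c)) ∣ S →
  Module.Finite L (MvPolynomial (Fin 2) L ⧸ Ideal.span {ζ, S}) →
  J.card * e ≤ Module.finrank L (MvPolynomial (Fin 2) L ⧸ Ideal.span {ζ, S})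

/-- for all but finitely many constants `c`, `G - c` is relatively prime to `S` -/
def T_COP : Prop := ∀ (L : Type) [Field L] (G S : MvPolynomial (Fin 2) L), S ≠ 0 →
  {c : L | ¬ IsRelPrime (G - C c) S}.Finite

/-- an extension of the degree valuation of `L[τ]` to a bigger field -/
def T_VAL : Prop := ∀ (L : Type) [Field L] (Ω : Type) [Field Ω] [Algebra (Polynomial L) Ω],
  Function.Injective (algebraMap (Polynomial L) Ω) →
  ∃ (Γ : Type) (_ : LinearOrderedCommGroupWithZero Γ) (w : Valuation Ω Γ),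
    1 < w (algebraMap (Polynomial L) Ω Polynomial.X) ∧
    ∀ a : Polynomial L, a ≠ 0 → w (algebraMap (Polynomial L) Ω a) =
      w (algebraMap (Polynomial L) Ω Polynomial.X) ^ a.natDegree

/-- the cokernel of an injective endomorphism of a free module over `L[τ]` -/
def T_SNF : Prop := ∀ (L : Type) [Field L] (n : ℕ)
  (φ : (Fin n → Polynomial L) →ₗ[Polynomial L] (Fin n → Polynomial L)), LinearMap.det φ ≠ 0 →
  Module.finrank L ((Fin n → Polynomial L) ⧸ LinearMap.range φ) = (LinearMap.det φ).natDegree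

/-- norm and intersection number: `T` is monic up to a constant in the outer variable -/
def T_NRM : Prop := ∀ (L : Type) [Field L] (Ω : Type) [Field Ω] [IsAlgClosed Ω]
  [Algebra (Polynomial L) Ω], Function.Injective (algebraMap (Polynomial L) Ω) →
  ∀ (T S : Polynomial (Polynomial L)) (κ : L), κ ≠ 0 → T.leadingCoeff = Polynomial.C κ →
  ∃ r : Polynomial L,
    algebraMap (Polynomial L) Ω r = ((T.map (algebraMap (Polynomial L) Ω)).roots.map
      fun ξ => (S.map (algebraMap (Polynomial L) Ω)).eval ξ).prod ∧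
    (Module.Finite L (Polynomial (Polynomial L) ⧸ Ideal.span {T, S}) → r ≠ 0) ∧
    (r ≠ 0 → Module.finrank L (Polynomial (Polynomial L) ⧸ Ideal.span {T, S}) = r.natDegree)

/-- Gauss's lemma for valuations, in the form of an inequality for the roots -/
def T_SYM : Prop := ∀ (Ω : Type) [Field Ω] (Γ : Type) [LinearOrderedCommGroupWithZero Γ]
  (w : Valuation Ω Γ) (s : Multiset Ω) (g : Γ),
  (∀ n, w (((s.map fun η => Polynomial.X - Polynomial.C η).prod).coeff n) ≤ g) →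
  (s.map fun η => max 1 (w η)).prod ≤ g

/-- upper bound for the number of zeros on a plane curve -/
def T_UPR : Prop := ∀ (L : Type) [Field L] [Infinite L] (T P : Polynomial (Polynomial L)) (κ : L)
  (d M k D l : ℕ) (c : ℕ → ℕ → Polynomial L), κ ≠ 0 → T.natDegree = d →
  T.leadingCoeff = Polynomial.C κ → (∀ j, (T.coeff j).natDegree ≤ d) →
  {c' : L | Module.finrank L (Polynomial (Polynomial L) ⧸
    Ideal.span {T, P - Polynomial.C (Polynomial.C c')}) ≤ M}.Infinite →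
  (∀ a i, (c a i).natDegree ≤ l) →
  Module.Finite L (Polynomial (Polynomial L) ⧸ Ideal.span {T,
    ∑ a ∈ Finset.range (k + 1), ∑ i ∈ Finset.range D,
      P ^ a * Polynomial.X ^ i * Polynomial.C (c a i)}) →
  Module.finrank L (Polynomial (Polynomial L) ⧸ Ideal.span {T,
    ∑ a ∈ Finset.range (k + 1), ∑ i ∈ Finset.range D,
      P ^ a * Polynomial.X ^ i * Polynomial.C (c a i)}) ≤ k * M + (D + l) * d

/-- restriction to a plane: `rho` is onto with kernel generated by the equation of the plane -/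
def T_ISO : Prop := ∀ (L : Type) [Field L] (Xt Zt : Tup L) (u : Fin 4 → L), Inv Xt Zt → u 3 ≠ 0 →
  Function.Surjective (rho Zt u) ∧ ∀ q : Po L, rho Zt u q = 0 ↔ aeval Xt (lin u) ∣ q

/-- upper bound for the number of zeros of an element of `Vsp` on the curve `z_0 = c` of the
plane -/
def T_UPZ : Prop := ∀ (L : Type) [Field L] [Infinite L] (Xt Zt : Tup L) (p : Po L)
  (u : Fin 4 → L) (d e k D l : ℕ) (s : Po L) (c : L), Inv Xt Zt → u 3 ≠ 0 →
  (∀ i, (Xt i).totalDegree ≤ d) → (∀ i, (Zt i).totalDegree ≤ e) → p.totalDegree ≤ d →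
  coeff (Finsupp.single 2 d) (aeval Xt (lin u)) ≠ 0 → s ∈ Vsp (aeval Xt p) k D l →
  rho Zt u s ≠ 0 → rho Zt u (X 0) - C c ≠ 0 →
  IsRelPrime (rho Zt u (X 0) - C c) (rho Zt u s) →
  Module.Finite L (MvPolynomial (Fin 2) L ⧸ Ideal.span {rho Zt u (X 0) - C c, rho Zt u s}) ∧
  Module.finrank L (MvPolynomial (Fin 2) L ⧸ Ideal.span {rho Zt u (X 0) - C c, rho Zt u s}) ≤
    k * (d * e) + (D + l) * d

/-- the rank of the restriction to a plane -/
def T_RNK : Prop := ∀ (L : Type) [Field L] [Infinite L] (Xt Zt : Tup L) (p : Po L)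
  (u : Fin 4 → L) (d e k D l J : ℕ), Inv Xt Zt → u 3 ≠ 0 →
  (∀ i, (Xt i).totalDegree ≤ d) → (∀ i, (Zt i).totalDegree ≤ e) → p.totalDegree ≤ d →
  coeff (Finsupp.single 2 d) (aeval Xt (lin u)) ≠ 0 →
  coeff (Finsupp.single 0 e) (aeval (pl u) (Zt 0)) ≠ 0 → 1 ≤ e →
  k * (d * e) + (D + l) * d < J * e →
  Module.finrank L (Submodule.map (rho Zt u).toLinearMap (Vsp (aeval Xt p) k D l)) ≤
    J * (k * d + (l + D) * e + 1)

/-- the dimension of `Vsp` -/
def T_DIM : Prop := ∀ (L : Type) [Field L] (P : Po L) (D k l : ℕ), 1 ≤ D → P.totalDegree ≤ D →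
  coeff (Finsupp.single 2 D) P ≠ 0 →
  (k + 1) * D * ((l + 1) * (l + 2) / 2) ≤ Module.finrank L (Vsp P k D l)

/-! ## Generic planes and the auxiliary polynomial -/

/-- the generic plane does not contain the direction `(0,0,1)` at infinity -/
def T_GNB : Prop := ∀ (k : Type) [Field k] (N : ℕ) (j : Fin N) (Xt : Tup k) (d : ℕ),
  (∃ i, coeff (Finsupp.single 2 d) (Xt i) ≠ 0) →
  coeff (Finsupp.single 2 d) (aeval (fun i => bc N (Xt i)) (lin (uu k N j))) ≠ 0

/-- restriction to the generic plane keeps the coefficient of `x_0 ^ e` different from zero -/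
def T_GNC : Prop := ∀ (k : Type) [Field k] (N : ℕ) (j : Fin N) (q : Po k) (e : ℕ),
  q.totalDegree ≤ e → coeff (Finsupp.single 0 e) q ≠ 0 →
  coeff (Finsupp.single 0 e) (aeval (pl (uu k N j)) (bc N q)) ≠ 0

/-- different generic linear forms are relatively prime -/
def T_GND : Prop := ∀ (k : Type) [Field k] (N : ℕ) (i j : Fin N), i ≠ j →
  IsRelPrime (lin (uu k N i)) (lin (uu k N j))

/-- from the generic field to polynomials in the coefficients of the planes -/
def T_DEN : Prop := ∀ (k : Type) [Field k] (N : ℕ) (B : Set (Po k)) (S : Po (GF k N)), S ≠ 0 →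
  S ∈ Submodule.span (GF k N) (bc N '' B) → (∀ j, lin (uu k N j) ∣ S) →
  ∃ s s' : MvPolynomial (Fin N × Fin 4) (Po k), s' ≠ 0 ∧
    s = (∏ j, Lf N (fun i => (X i : Po k)) j) * s' ∧ ∀ γ, coeff γ s ∈ Submodule.span k B

/-- the numerical inequality -/
def T_CAL : Prop := ∀ d e D Λ : ℕ, 1 ≤ d → 1 ≤ e → 1 ≤ D → d ≤ Λ → e ≤ Λ →
  D ^ 2 * ((64 * d * D * d + (D + 64 * d * D * Λ) * d / e + 1) *
    (64 * d * D * d + (64 * d * D * Λ + D) * e + 1)) <
  (64 * d * D + 1) * D * ((64 * d * D * Λ + 1) * (64 * d * D * Λ + 2) / 2)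

/-- the auxiliary polynomial in good coordinates -/
def T_AXC : Prop := ∀ (k : Type) [Field k] [Infinite k] (Xt Zt : Tup k) (p : Po k)
  (d e D Λ : ℕ), Inv Xt Zt → 1 ≤ d → 1 ≤ e → 1 ≤ D → d ≤ Λ → e ≤ Λ →
  (∀ i, (Xt i).totalDegree ≤ d) → (∀ i, (Zt i).totalDegree ≤ e) → p.totalDegree ≤ d →
  (aeval Xt p).totalDegree ≤ D → coeff (Finsupp.single 2 D) (aeval Xt p) ≠ 0 →
  (∃ i, coeff (Finsupp.single 2 d) (Xt i) ≠ 0) → coeff (Finsupp.single 0 e) (Zt 0) ≠ 0 →
  Aux (D ^ 2) (64 * d * D) (65 * d * D * Λ) (fun i => (X i : Po k)) p Zt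

/-- the auxiliary polynomial -/
def T_AUX : Prop := ∀ (k : Type) [Field k] [Infinite k] (g g' : Tup k) (i₀ : Fin 3)
  (d e D Λ : ℕ), Inv g g' → deg g = d → deg g' = e → (comp g g i₀).totalDegree = D →
  1 ≤ D → d ≤ Λ → e ≤ Λ → ∃ B B' : Matrix (Fin 3) (Fin 3) k, B' * B = 1 ∧
    Aux (D ^ 2) (64 * d * D) (65 * d * D * Λ) (fun i => ∑ j, C (B i j) * X j) (g i₀) g'

/-! ## Heights -/

/-- multiplication by generic linear forms increases the Gauss norm -/
def T_GNO : Prop := ∀ (k : Type) [Field k] (N δ : ℕ) (w : AbsoluteValue k ℝ),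
  ∃ c : ℝ, 0 < c ∧ c ≤ 1 ∧ (NA w → c = 1) ∧
    ∀ (x : Fin 3 → k) (q : MvPolynomial (Fin N × Fin 4) k), q.totalDegree ≤ δ →
      ∀ γ, ∃ γ', c * sz w x ^ N * w (coeff γ q) ≤ w (coeff γ' ((∏ j, Lf N x j) * q))

/-- bound for the values of a polynomial -/
def T_HUB : Prop := ∀ (K : IntermediateField ℚ Qb) (F : HFam K) (q : Po Qb),
  ∃ c, Const F c ∧ ∀ i x, F.abv i (eval x q) ≤ c i * sz (F.abv i) x ^ q.totalDegree

/-- bound for the values of an element of `Wsp` -/
def T_WBD : Prop := ∀ (K : IntermediateField ℚ Qb) (F : HFam K) (y : Po Qb) (z : Tup Qb)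
  (A B : ℕ) (q : Po Qb), q ∈ Wsp y z A B → ∃ c, Const F c ∧ ∀ i x,
    F.abv i (eval x q) ≤
      c i * (max 1 (F.abv i (eval x y)) ^ A * sz (F.abv i) (pmap z x) ^ B)

/-- the key inequality between the heights of three consecutive points of an orbit -/
def T_KEY : Prop := ∀ (g g' : Tup Qb) (d e D Λ : ℕ), Inv g g' → deg g = d → deg g' = e →
  deg (comp g g) = D → d ≤ Λ → e ≤ Λ → ∃ b : Po Qb, b ≠ 0 ∧
    ∀ (K : IntermediateField ℚ Qb) (F : HFam K), ∃ c : ℝ, ∀ x : Fin 3 → Qb,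
      eval x b ∈ K → eval x b ≠ 0 →
      (D : ℝ) * F.ht x ≤ 64 * d * F.ht (pmap g x) + 65 * d * Λ * F.ht (pmap g' x) + c

/-- every number field has a family of absolute values with the product formula -/
def T_PFX : Prop := ∀ K : IntermediateField ℚ Qb, FiniteDimensional ℚ K → Nonempty (HFam K)

/-- growth of heights along a line -/
def T_LIN : Prop := ∀ (g : Tup Qb) (d : ℕ), deg g = d → 1 ≤ d → ∃ u : Fin 3 → ℤ,
  ∀ (K : IntermediateField ℚ Qb) (F : HFam K) (a : Fin 3 → Qb), ∃ c : ℝ, ∀ t : ℕ, 1 ≤ t →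
    (d : ℝ) * F.ht (fun i => a i + t * u i) ≤ F.ht (pmap g fun i => a i + t * u i) + c ∧
    Real.log t ≤ F.ht (fun i => a i + t * u i) + c

/-! ## Periodic surfaces -/

/-- four semi-invariants of an automorphism give an invariant rational function -/
def T_PSF : Prop := ∀ (k : Type) [Field k] [CharZero k] (f f' : Tup k) (P : Fin 4 → Po k)
  (c : Fin 4 → k), Inv f f' → (∀ i, Irreducible (P i)) →
  (∀ i j, i ≠ j → ¬ Associated (P i) (P j)) → (∀ i, aeval f (P i) = C (c i) * P i) → ¬ NoInv f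

/-- invariant functions of iterates -/
def T_PIT : Prop := ∀ (k : Type) [Field k] [IsAlgClosed k] (f f' : Tup k) (m : ℕ), Inv f f' →
  1 ≤ m → NoInv f → NoInv (it f m)

/-- all periodic surfaces lie in one surface -/
def T_PER : Prop := ∀ (k : Type) [Field k] [IsAlgClosed k] [CharZero k] (f f' : Tup k),
  Inv f f' → NoInv f → ∃ b : Po k, b ≠ 0 ∧ ∀ (P : Po k) (r : ℕ) (c : k), Irreducible P →
    1 ≤ r → aeval (it f r) P = C c * P → P ∣ b

/-! ## Orbits which are not dense, and curves -/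

/-- a component of the closure of an orbit is periodic -/
def T_ORB : Prop := ∀ (k : Type) [Field k] (f f' : Tup k) (x : Fin 3 → k) (h : Po k),
  Inv f f' → h ≠ 0 → (∀ n, eval ((pmap f)^[n] x) h = 0) →
  ∃ (I : Ideal (Po k)) (r : ℕ), I.IsPrime ∧ I ≠ ⊥ ∧ 1 ≤ r ∧
    Ideal.comap (aeval (it f r) : Po k →ₐ[k] Po k) I = I ∧ ∀ q ∈ I, eval x q = 0

/-- the forward orbit is dense if the backward orbit is -/
def T_REV : Prop := ∀ (k : Type) [Field k] (f f' : Tup k) (x : Fin 3 → k), Inv f f' →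
  DenseOrbit f' x → DenseOrbit f x

/-- a prime ideal of `k[x_0, x_1, x_2]` which is not principal has a quotient of dimension at
most one -/
def T_NOE : Prop := ∀ (k : Type) [Field k] (I : Ideal (Po k)), I.IsPrime → I ≠ ⊥ →
  (∀ P : Po k, I ≠ Ideal.span {P}) → ∃ s ≤ 1, ∃ g : MvPolynomial (Fin s) k →ₐ[k] (Po k ⧸ I),
    Function.Injective g ∧ g.Finite

/-- the degrees (over `k[t]`) of the characteristic polynomials of the images of an element under
the powers of an automorphism are bounded -/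
def T_NDG : Prop := ∀ (k : Type) [Field k] [Infinite k] (A : Type) [CommRing A] [IsDomain A]
  [Algebra k A] (g : Polynomial k →ₐ[k] A) (σ : A ≃ₐ[k] A) (a : A), Function.Injective g →
  g.Finite → ∃ M : ℕ, ∀ n : ℕ, ∃ Q : Polynomial (Polynomial k), Q.Monic ∧
    (∀ j, (Q.coeff j).natDegree ≤ M) ∧ Q.eval₂ g.toRingHom ((σ ^ n) a) = 0

/-- heights along a periodic curve grow slowly -/
def T_CUR : Prop := ∀ (f f' : Tup Qb) (I : Ideal (Po Qb)) (r : ℕ), Inv f f' → I.IsPrime →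
  I ≠ ⊥ → (∀ P : Po Qb, I ≠ Ideal.span {P}) →
  Ideal.comap (aeval (it f r) : Po Qb →ₐ[Qb] Po Qb) I = I →
  ∃ M : ℕ, ∀ (n : ℕ) (K : IntermediateField ℚ Qb) (F : HFam K), ∃ c : ℝ, ∀ y : Fin 3 → Qb,
    (∀ q ∈ I, eval y q = 0) → F.ht ((pmap f)^[r * n] y) ≤ M * F.ht y + c

/-! ## Points modulo primes -/

/-- normal forms modulo `x_i ^ Q - f_i` -/
def T_FBA : Prop := ∀ (κ : Type) [Field κ] (f : Tup κ) (Q : ℕ) (b : Po κ), deg f < Q →
  b.totalDegree < Q → b ∈ Ideal.span (Set.range fun i => X i ^ Q - f i) → b = 0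

/-- the algebra defined by `x_i ^ Q = f_i` is reduced when `f` is an automorphism and `Q = 0` -/
def T_RED : Prop := ∀ (κ : Type) [Field κ] (f f' : Tup κ) (Q : ℕ), Inv f f' → 2 ≤ Q →
  (Q : κ) = 0 → IsReduced (Po κ ⧸ Ideal.span (Set.range fun i => X i ^ Q - f i))

/-- a point which is moved by `f` as by Frobenius -/
def T_FRX : Prop := ∀ (κ : Type) [Field κ] [IsAlgClosed κ] (f f' : Tup κ) (Q : ℕ) (b : Po κ),
  Inv f f' → 2 ≤ Q → (Q : κ) = 0 → deg f < Q → b.totalDegree < Q → b ≠ 0 →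
  ∃ x : Fin 3 → κ, (∀ i, eval x (f i) = x i ^ Q) ∧ eval x b ≠ 0

/-- an open set of points whose orbits avoid a given surface -/
def T_FRO : Prop := ∀ (f f' : Tup Qb) (b : Po Qb), Inv f f' → b ≠ 0 →
  ∃ (p : Nat.Primes) (a : Fin 3 → Qb), ∀ x : Fin 3 → Qb, (∀ i, v p (x i - a i) < 1) →
    ∀ n, eval ((pmap f)^[n] x) b ≠ 0 ∧ eval ((pmap f')^[n] x) b ≠ 0

/-! ## Numbers -/

/-- the growth condition for one step -/
def Good (d e D : ℕ) : Prop := 128 * d * (130 * d * max d e + D) ≤ D ^ 2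

/-- submultiplicative sequences with exponential growth -/
def T_GRO : Prop := ∀ (d e : ℕ → ℕ) (c : ℝ), (∀ n, 1 ≤ d n) → (∀ n, 1 ≤ e n) →
  (∀ m n, d (m + n) ≤ d m * d n) → (∀ m n, e (m + n) ≤ e m * e n) → 1 < c →
  (∀ N, ∃ n ≥ N, c ^ n ≤ (d n : ℝ)) →
  ∃ m ≥ 1, Good (d m) (e m) (d (m + m)) ∨ Good (e m) (d m) (e (m + m))

end Pool.Agent.H8.ZA
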